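import Mathlib

/-!
The blow-up lemma for the reduced Kepler–Heisenberg system (real-variable form).
-/

open Set Filter Metric
open scoped Topology

namespace Pool.Agent.KH

theorem hasDerivAt_s {Q : ℝ → ℝ} {s : ℝ → ℝ} (hs : ∀ t, s t = √(1 + Q t ^ 2)) {t q : ℝ}
    (hQ : HasDerivAt Q q t) : HasDerivAt s (Q t * q / s t) t := by
  have h1 : HasDerivAt (fun t => 1 + Q t ^ 2) (2 * Q t * q) t := by
    have := (hQ.pow 2).const_add 1
    simpa [pow_one] using this
  have h2 : HasDerivAt (fun t => √(1 + Q t ^ 2)) (2 * Q t * q / (2 * √(1 + Q t ^ 2))) t :=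
    h1.sqrt (by positivity)
  have h3 : s = fun t => √(1 + Q t ^ 2) := funext hs
  rw [h3]
  convert! h2 using 1
  have : 0 < √(1 + Q t ^ 2) := Real.sqrt_pos.2 (by positivity)
  field_simp

theorem hasDerivAt_E {k p : ℝ} (hk : 0 < k) {Q A B s E : ℝ → ℝ}
    (hs : ∀ t, s t = √(1 + Q t ^ 2))
    (hE : ∀ t, E t = (A t ^ 2 + B t ^ 2) / 2 - 1 / (k * s t)) {t : ℝ} (hE0 : E t ≠ 0)
    (hQ' : HasDerivAt Q ((B t - Q t * A t) / E t) t)
    (hA' : HasDerivAt A ((A t ^ 2 - B t ^ 2 + 2 * p * B t - 2 / (k * s t ^ 3)) / (2 * E t)) t)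
    (hB' : HasDerivAt B ((2 * A t * (B t - p) - 2 * Q t / (k * s t ^ 3)) / (2 * E t)) t) :
    HasDerivAt E (A t) t := by
  have hs0 : 0 < s t := by rw [hs]; exact Real.sqrt_pos.2 (by positivity)
  have hs2 : s t ^ 2 = 1 + Q t ^ 2 := by rw [hs]; exact Real.sq_sqrt (by positivity)
  have hs' := hasDerivAt_s hs hQ'
  obtain ⟨w, hw⟩ : ∃ w, w = 1 / (k * s t ^ 3) := ⟨_, rfl⟩
  have w1 : 2 / (k * s t ^ 3) = 2 * w := by rw [hw]; ring
  have w2 : 2 * Q t / (k * s t ^ 3) = 2 * Q t * w := by rw [hw]; ring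
  have w3 : 1 / (k * s t) = w * (1 + Q t ^ 2) := by rw [hw, ← hs2]; field_simp
  rw [w1] at hA'
  rw [w2] at hB'
  have h1 : HasDerivAt (fun t => (A t ^ 2 + B t ^ 2) / 2)
      ((2 * A t * ((A t ^ 2 - B t ^ 2 + 2 * p * B t - 2 * w) / (2 * E t)) +
        2 * B t * ((2 * A t * (B t - p) - 2 * Q t * w) / (2 * E t))) / 2) t := by
    have := ((hA'.pow 2).add (hB'.pow 2)).div_const 2
    simpa [pow_one] using this
  have h2 : HasDerivAt (fun t => 1 / (k * s t))
      (-(Q t * ((B t - Q t * A t) / E t) * w)) t := by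
    have h := (hs'.const_mul k).fun_inv (by positivity)
    have e : (fun t => 1 / (k * s t)) = fun t => (k * s t)⁻¹ := by
      funext t; rw [one_div]
    rw [e]
    convert! h using 1
    rw [hw]
    field_simp
  have h3 := h1.sub h2
  have h4 : E = fun t => (A t ^ 2 + B t ^ 2) / 2 - 1 / (k * s t) := funext hE
  have hEt := hE t
  rw [w3] at hEt
  rw [h4]
  convert! h3 using 1
  field_simp
  rw [hEt]
  ring

/-- The basic bound on the position quotient. -/
theorem Q_bound {a b c x : ℝ} (ha : 0 < a) (hb : 0 ≤ b) (hc : 0 ≤ c)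
    (h : a * x ^ 2 ≤ b * |x| + c) : |x| ≤ (b + c) / a + 1 := by
  by_contra hcon
  push Not at hcon
  have h0 : 0 ≤ (b + c) / a := by positivity
  have h1 : 1 < |x| := by linarith
  have h2 : (b + c) / a * a = b + c := by field_simp
  have h3 : (b + c + a) < a * |x| := by nlinarith
  have h4 : a * x ^ 2 = (a * |x|) * |x| := by rw [← sq_abs x]; ring
  nlinarith

theorem constraint {k p J Q A B s E : ℝ} (hk : 0 < k) (hs0 : 0 < s)
    (hs2 : s ^ 2 = 1 + Q ^ 2) (hE : E = (A ^ 2 + B ^ 2) / 2 - 1 / (k * s))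
    (hJ : A + Q * (B - p) = J) :
    (J + p * Q) ^ 2 + (B - Q * A) ^ 2 = s ^ 2 * (2 * E) + 2 * s / k := by
  rw [hs2, hE, ← hJ]
  have : 2 * s / k = (1 + Q ^ 2) * (2 / (k * s)) := by rw [← hs2]; field_simp
  rw [this]
  field_simp
  ring

/-- Sign of the auxiliary factor `g`. -/
theorem g_pos {k p J Q A B s E : ℝ} (hk : 0 < k) (hp : p ≠ 0) (hs0 : 0 < s)
    (hs2 : s ^ 2 = 1 + Q ^ 2) (hE : E = (A ^ 2 + B ^ 2) / 2 - 1 / (k * s))
    (hJ : A + Q * (B - p) = J) (hsmall : 2 * k ^ 2 * p ^ 2 * E * s ^ 2 ≤ 1) :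
    0 < 1 + (k * p / s) * (p - J * Q + B - Q * A) := by
  have hs1 : 1 ≤ s := by nlinarith [sq_nonneg Q]
  -- the constraint
  have hcon : (J + p * Q) ^ 2 + (B - Q * A) ^ 2 = s ^ 2 * (2 * E) + 2 * s / k := by
    rw [hs2, hE, ← hJ]
    have : 2 * s / k = (1 + Q ^ 2) * (2 / (k * s)) := by rw [← hs2]; field_simp
    rw [this]
    field_simp
    ring
  -- scaled quantities
  set g := 1 + (k * p / s) * (p - J * Q + B - Q * A) with hg
  set g' := 1 + (k * p / s) * (p - J * Q - B + Q * A) with hg'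
  have hsum : g + g' = 2 * (1 + (k * p / s) * (p - J * Q)) := by rw [hg, hg']; ring
  have hprod : g * g' * s ^ 2 = (k * p * J * s - Q) ^ 2 + 1 + k ^ 2 * p ^ 4 * s ^ 2
      - 2 * k ^ 2 * p ^ 2 * E * s ^ 2 := by
    have e1 : g * s = s + k * p * (p - J * Q + (B - Q * A)) := by
      rw [hg]; field_simp; ring
    have e2 : g' * s = s + k * p * (p - J * Q - (B - Q * A)) := by
      rw [hg']; field_simp; ring
    have e3 : g * g' * s ^ 2 = (g * s) * (g' * s) := by ring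
    rw [e3, e1, e2]
    have e4 : (B - Q * A) ^ 2 = s ^ 2 * (2 * E) + 2 * s / k - (J + p * Q) ^ 2 := by linarith
    have e5 : (s + k * p * (p - J * Q + (B - Q * A))) * (s + k * p * (p - J * Q - (B - Q * A)))
        = (s + k * p * (p - J * Q)) ^ 2 - k ^ 2 * p ^ 2 * (B - Q * A) ^ 2 := by ring
    rw [e5, e4]
    have e6 : k ^ 2 * p ^ 2 * (s ^ 2 * (2 * E) + 2 * s / k - (J + p * Q) ^ 2) =
        k ^ 2 * p ^ 2 * s ^ 2 * (2 * E) + 2 * k * p ^ 2 * s - k ^ 2 * p ^ 2 * (J + p * Q) ^ 2 := by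
      field_simp
    rw [e6]
    have e7 : Q ^ 2 = s ^ 2 - 1 := by linarith
    linear_combination (k ^ 2 * p ^ 2 * J ^ 2 + k ^ 2 * p ^ 4 - 1) * e7
  have hprodpos : 0 < g * g' := by
    have h1 : 0 < g * g' * s ^ 2 := by
      rw [hprod]
      have : 0 < k ^ 2 * p ^ 4 * s ^ 2 := by positivity
      nlinarith [sq_nonneg (k * p * J * s - Q)]
    exact (pos_iff_pos_of_mul_pos h1).2 (by positivity) 
  have hsumpos : 0 < g + g' := by
    rw [hsum]
    -- show `k p (J Q - p) < s`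
    have key : k * p * (J * Q - p) * (2 * s) ≤ 2 * s ^ 2 - 1 := by
      -- with X = k p (J Q - p)/s, Y = k p (J + p Q)/s
      have hY : k ^ 2 * p ^ 2 * (J + p * Q) ^ 2 ≤ 2 * k ^ 2 * p ^ 2 * E * s ^ 2 +
          2 * k * p ^ 2 * s := by
        have h1 : (J + p * Q) ^ 2 ≤ s ^ 2 * (2 * E) + 2 * s / k := by
          nlinarith [sq_nonneg (B - Q * A)]
        have h2 := mul_le_mul_of_nonneg_left h1 (by positivity : 0 ≤ k ^ 2 * p ^ 2)
        have h3 : k ^ 2 * p ^ 2 * (s ^ 2 * (2 * E) + 2 * s / k) =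
          2 * k ^ 2 * p ^ 2 * E * s ^ 2 + 2 * k * p ^ 2 * s := by field_simp
        linarith
      have hY2 : (k * p * (J + p * Q)) ^ 2 ≤ 1 + 2 * k * p ^ 2 * s := by nlinarith
      -- identity: k p^2 s^2 = Q * Y - X with Y := k p (J + p Q), X := k p (J Q - p)
      have hid : k * p ^ 2 * s ^ 2 = Q * (k * p * (J + p * Q)) - k * p * (J * Q - p) := by
        rw [hs2]; ring
      have h5 : s * (k * p * (J + p * Q)) ^ 2 ≤ s + 2 * (k * p ^ 2 * s ^ 2) := by nlinarith
      rw [hid] at h5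
      -- complete the square
      nlinarith [sq_nonneg (s * (k * p * (J + p * Q)) - Q)]
    have h6 : k * p * (J * Q - p) < s := by nlinarith
    have h7 : 0 < (1 + (k * p / s) * (p - J * Q)) * s := by
      have : (1 + (k * p / s) * (p - J * Q)) * s = s - k * p * (J * Q - p) := by
        field_simp; ring
      rw [this]; linarith
    have h8 : 0 < 1 + (k * p / s) * (p - J * Q) := by
      exact (pos_iff_pos_of_mul_pos h7).2 hs0
    linarith
  -- both factors positive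
  by_contra hneg
  push Not at hneg
  have h9 : 0 < g' := by linarith
  nlinarith

/-- Derivative of `D = E s g`. -/
theorem hasDerivAt_D {k p J₀ : ℝ} (hk : 0 < k) {Q A B s E : ℝ → ℝ}
    (hs : ∀ t, s t = √(1 + Q t ^ 2))
    (hE : ∀ t, E t = (A t ^ 2 + B t ^ 2) / 2 - 1 / (k * s t)) {t : ℝ} (hE0 : E t ≠ 0)
    (hJ : A t + Q t * (B t - p) = J₀ + t)
    (hQ' : HasDerivAt Q ((B t - Q t * A t) / E t) t)
    (hA' : HasDerivAt A ((A t ^ 2 - B t ^ 2 + 2 * p * B t - 2 / (k * s t ^ 3)) / (2 * E t)) t)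
    (hB' : HasDerivAt B ((2 * A t * (B t - p) - 2 * Q t / (k * s t ^ 3)) / (2 * E t)) t) :
    HasDerivAt (fun t => E t * s t) ((J₀ + t + p * Q t) / s t) t ∧
    HasDerivAt (fun t => E t * s t + k * p * E t * (p - (J₀ + t) * Q t + B t - Q t * A t))
      ((J₀ + t) / s t - 2 * k * p * Q t * E t) t := by
  have hs0 : 0 < s t := by rw [hs]; exact Real.sqrt_pos.2 (by positivity)
  have hs2 : s t ^ 2 = 1 + Q t ^ 2 := by rw [hs]; exact Real.sq_sqrt (by positivity)
  have hs' := hasDerivAt_s hs hQ'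
  have hE' := hasDerivAt_E hk hs hE hE0 hQ' hA' hB'
  have hEs : HasDerivAt (fun t => E t * s t) ((J₀ + t + p * Q t) / s t) t := by
    convert! hE'.mul hs' using 1
    rw [← hJ]
    field_simp
    rw [hs2]
    ring
  refine ⟨hEs, ?_⟩
  obtain ⟨w, hw⟩ : ∃ w, w = 1 / (k * s t ^ 3) := ⟨_, rfl⟩
  have w1 : 2 / (k * s t ^ 3) = 2 * w := by rw [hw]; ring
  have w2 : 2 * Q t / (k * s t ^ 3) = 2 * Q t * w := by rw [hw]; ring
  have w3 : 1 / (k * s t) = w * (1 + Q t ^ 2) := by rw [hw, ← hs2]; field_simp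
  rw [w1] at hA'
  rw [w2] at hB'
  have hEt := hE t
  rw [w3] at hEt
  have hlin : HasDerivAt (fun t => p - (J₀ + t) * Q t + B t - Q t * A t)
      (-(1 * Q t + (J₀ + t) * ((B t - Q t * A t) / E t)) +
        (2 * A t * (B t - p) - 2 * Q t * w) / (2 * E t) -
        ((B t - Q t * A t) / E t * A t +
          Q t * ((A t ^ 2 - B t ^ 2 + 2 * p * B t - 2 * w) / (2 * E t)))) t := by
    have h1 : HasDerivAt (fun t => (J₀ + t) * Q t)
        (1 * Q t + (J₀ + t) * ((B t - Q t * A t) / E t)) t :=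
      ((hasDerivAt_id t).const_add J₀).mul hQ'
    have h2 := ((h1.const_sub p).add hB').sub (hQ'.mul hA')
    exact h2
  have h4 : HasDerivAt (fun t => k * p * E t * (p - (J₀ + t) * Q t + B t - Q t * A t))
      (k * p * A t * (p - (J₀ + t) * Q t + B t - Q t * A t) + k * p * E t *
        (-(1 * Q t + (J₀ + t) * ((B t - Q t * A t) / E t)) +
        (2 * A t * (B t - p) - 2 * Q t * w) / (2 * E t) -
        ((B t - Q t * A t) / E t * A t +
          Q t * ((A t ^ 2 - B t ^ 2 + 2 * p * B t - 2 * w) / (2 * E t))))) t :=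
    (hE'.const_mul (k * p)).mul hlin
  convert! hEs.add h4 using 1
  rw [← hJ]
  have e5 : k * p * E t *
        (-(1 * Q t + (A t + Q t * (B t - p)) * ((B t - Q t * A t) / E t)) +
        (2 * A t * (B t - p) - 2 * Q t * w) / (2 * E t) -
        ((B t - Q t * A t) / E t * A t +
          Q t * ((A t ^ 2 - B t ^ 2 + 2 * p * B t - 2 * w) / (2 * E t)))) =
      k * p * (-(E t * Q t) - (A t + Q t * (B t - p)) * (B t - Q t * A t) +
        (A t * (B t - p) - Q t * w) - (B t - Q t * A t) * A t -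
          Q t * ((A t ^ 2 - B t ^ 2) / 2 + p * B t - w)) := by
    field_simp
    ring
  rw [e5]
  have e6 : (A t + Q t * (B t - p) + p * Q t) / s t = (A t + Q t * (B t - p)) / s t +
      p * Q t / s t := by ring
  rw [e6]
  -- `1/s = k w (1+Q^2)`
  have e7 : p * Q t / s t = p * Q t * (k * (w * (1 + Q t ^ 2))) := by
    rw [← w3]; field_simp
  rw [e7, hEt]
  ring

theorem eventually_small (c : ℝ) {d : ℝ} (hd : 0 < d) : ∀ᶠ δ in 𝓝[>] (0 : ℝ), c * δ < d := by
  have h : Tendsto (fun δ : ℝ => c * δ) (𝓝 0) (𝓝 (c * 0)) :=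
    (continuous_const.mul continuous_id).tendsto 0
  rw [mul_zero] at h
  exact (h.eventually (gt_mem_nhds hd)).filter_mono nhdsWithin_le_nhds

theorem blow_lemma {k : ℝ} (hk : 0 < k) {ς : ℝ} (hς : ς = 1 ∨ ς = -1) {T : ℝ} (hT : 0 < T)
    {p J₀ : ℝ} (hp : p ≠ 0) {Q A B s E : ℝ → ℝ}
    (hs : ∀ t, s t = √(1 + Q t ^ 2))
    (hE : ∀ t, E t = (A t ^ 2 + B t ^ 2) / 2 - 1 / (k * s t))
    (hJ : ∀ t ∈ Ico 0 T, A t + Q t * (B t - p) = J₀ + t)
    (hpos : ∀ t ∈ Ico 0 T, 0 < ς * E t)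
    (hQ' : ∀ t ∈ Ico 0 T, HasDerivAt Q ((B t - Q t * A t) / E t) t)
    (hA' : ∀ t ∈ Ico 0 T,
      HasDerivAt A ((A t ^ 2 - B t ^ 2 + 2 * p * B t - 2 / (k * s t ^ 3)) / (2 * E t)) t)
    (hB' : ∀ t ∈ Ico 0 T,
      HasDerivAt B ((2 * A t * (B t - p) - 2 * Q t / (k * s t ^ 3)) / (2 * E t)) t)
    (hnc : ∀ M ε : ℝ, 0 < ε → ∃ t ∈ Ico 0 T, M < |Q t| ∨ M < |A t| ∨ M < |B t| ∨ |E t| < ε) :
    ς * (J₀ + T) ≤ 0 := by
  have hs0 : ∀ t, 0 < s t := fun t => by rw [hs]; exact Real.sqrt_pos.2 (by positivity)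
  have hs2 : ∀ t, s t ^ 2 = 1 + Q t ^ 2 := fun t => by rw [hs]; exact Real.sq_sqrt (by positivity)
  have hs1 : ∀ t, 1 ≤ s t := fun t => by nlinarith [hs0 t, hs2 t, sq_nonneg (Q t)]
  have hQs : ∀ t, |Q t| ≤ s t := fun t => by
    apply abs_le_of_sq_le_sq _ (hs0 t).le
    rw [hs2]; linarith
  have hsQ : ∀ t, s t ≤ 1 + |Q t| := fun t => by
    apply le_of_sq_le_sq _ (by positivity) 
    rw [hs2]
    have := sq_abs (Q t)
    nlinarith [abs_nonneg (Q t)]
  have hςabs : |ς| = 1 := by rcases hς with h | h <;> rw [h] <;> norm_num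
  have hE0 : ∀ t ∈ Ico 0 T, E t ≠ 0 := fun t ht h => by
    have := hpos t ht; rw [h, mul_zero] at this; exact lt_irrefl _ this
  have hEabs : ∀ t ∈ Ico 0 T, |E t| = ς * E t := fun t ht => by
    rw [← abs_of_pos (hpos t ht), abs_mul, hςabs, one_mul]
  -- constants
  set C : ℝ := |J₀| + T + |p| with hC
  have hp0 : 0 < |p| := abs_pos.2 hp
  have hC0 : 0 < C := by positivity
  have hJabs : ∀ t ∈ Ico 0 T, |J₀ + t| ≤ |J₀| + T := fun t ht => by
    calc |J₀ + t| ≤ |J₀| + |t| := abs_add_le _ _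
      _ ≤ |J₀| + T := by rw [abs_of_nonneg ht.1]; linarith [ht.2]
  have hder : ∀ t ∈ Ico 0 T, HasDerivAt (fun t => E t * s t) ((J₀ + t + p * Q t) / s t) t :=
    fun t ht => (hasDerivAt_D hk hs hE (hE0 t ht) (hJ t ht) (hQ' t ht) (hA' t ht) (hB' t ht)).1
  have hderD := fun t ht =>
    (hasDerivAt_D hk hs hE (hE0 t ht) (hJ t ht) (hQ' t ht) (hA' t ht) (hB' t ht)).2
  have hbound : ∀ t ∈ Ico 0 T, ‖(J₀ + t + p * Q t) / s t‖ ≤ C := by
    intro t ht
    rw [Real.norm_eq_abs, abs_div, abs_of_pos (hs0 t), div_le_iff₀ (hs0 t)]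
    calc |J₀ + t + p * Q t| ≤ |J₀ + t| + |p * Q t| := abs_add_le _ _
      _ ≤ (|J₀| + T) * s t + |p| * s t := by
        rw [abs_mul]
        have h1 := hJabs t ht
        have h2 := hs1 t
        have h3 := hQs t
        have h4 : 0 ≤ |J₀| + T := by positivity
        nlinarith [mul_le_mul_of_nonneg_left h3 hp0.le]
      _ = C * s t := by rw [hC]; ring
  have hLip : ∀ a ∈ Ico 0 T, ∀ b ∈ Ico 0 T, |E b * s b - E a * s a| ≤ C * |b - a| := by
    intro a ha b hb
    exact (convex_Ico 0 T).norm_image_sub_le_of_norm_hasDerivWithin_le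
      (fun t ht => (hder t ht).hasDerivWithinAt) hbound ha hb
  have h0mem : (0 : ℝ) ∈ Ico 0 T := ⟨le_rfl, hT⟩
  set M₁ : ℝ := |E 0 * s 0| + C * T with hM₁
  have hM₁0 : 0 ≤ M₁ := by positivity
  have hEs : ∀ t ∈ Ico 0 T, |E t * s t| ≤ M₁ := by
    intro t ht
    have h1 := hLip 0 h0mem t ht
    rw [sub_zero, abs_of_nonneg ht.1] at h1
    have h2 : |E t * s t| ≤ |E t * s t - E 0 * s 0| + |E 0 * s 0| := by
      have := abs_add_le (E t * s t - E 0 * s 0) (E 0 * s 0)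
      simpa using this
    nlinarith [ht.2]
  -- bound on Q
  set b : ℝ := 2 * (2 * M₁ + 2 / k) with hb
  set M₂ : ℝ := (b + (b + 2 * C ^ 2)) / p ^ 2 + 1 with hM₂
  have hb0 : 0 ≤ b := by positivity
  have hM₂0 : 0 < M₂ := by positivity
  have hQb : ∀ t ∈ Ico 0 T, |Q t| ≤ M₂ := by
    intro t ht
    refine Q_bound (by positivity) hb0 (by positivity) ?_
    have h1 := constraint hk (hs0 t) (hs2 t) (hE t) (hJ t ht)
    have h2 : (J₀ + t + p * Q t) ^ 2 ≤ (2 * M₁ + 2 / k) * s t := by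
      have h3 : s t ^ 2 * (2 * E t) = 2 * (E t * s t) * s t := by ring
      have h4 : E t * s t ≤ M₁ := (le_abs_self _).trans (hEs t ht)
      have h5 : 2 * s t / k = 2 / k * s t := by ring
      rw [h3, h5] at h1
      nlinarith [sq_nonneg (B t - Q t * A t), hs0 t]
    have h3 : |J₀ + t| ≤ C := (hJabs t ht).trans (by linarith)
    have h3' : (J₀ + t) ^ 2 ≤ C ^ 2 := sq_le_sq' (by linarith [abs_le.1 h3]) (abs_le.1 h3).2
    have h4 : p ^ 2 * Q t ^ 2 ≤ 2 * (J₀ + t + p * Q t) ^ 2 + 2 * (J₀ + t) ^ 2 := by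
      nlinarith [sq_nonneg (J₀ + t + p * Q t + (J₀ + t))]
    have h5 : (2 * M₁ + 2 / k) * s t ≤ (2 * M₁ + 2 / k) * (1 + |Q t|) :=
      mul_le_mul_of_nonneg_left (hsQ t) (by positivity)
    have h6 : b = 2 * (2 * M₁ + 2 / k) := hb
    nlinarith
  set S : ℝ := 1 + M₂ with hS
  have hS0 : 0 < S := by positivity
  have hsS : ∀ t ∈ Ico 0 T, s t ≤ S := fun t ht => (hsQ t).trans (by linarith [hQb t ht])
  have hEle : ∀ t ∈ Ico 0 T, |E t| ≤ |E t * s t| := by
    intro t ht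
    rw [abs_mul, abs_of_pos (hs0 t)]
    nlinarith [abs_nonneg (E t), hs1 t]
  set M₃ : ℝ := 2 * M₁ + 2 / k + 1 with hM₃
  have hM₃0 : 0 < M₃ := by positivity
  have hAB : ∀ t ∈ Ico 0 T, A t ^ 2 + B t ^ 2 ≤ M₃ - 1 := by
    intro t ht
    have h1 := hE t
    have h2 : E t ≤ M₁ := (le_abs_self _).trans ((hEle t ht).trans (hEs t ht))
    have h3 : 1 / (k * s t) ≤ 1 / k := by
      apply one_div_le_one_div_of_le hk
      nlinarith [hs1 t]
    have h4 : 2 / k = 2 * (1 / k) := by ring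
    rw [hM₃, h4]
    linarith
  have hsq : ∀ x y : ℝ, 1 ≤ y → x ^ 2 ≤ y - 1 → |x| ≤ y := by
    intro x y hy h
    apply abs_le_of_sq_le_sq _ (by linarith)
    nlinarith
  have hM₃1 : 1 ≤ M₃ := by
    have : 0 ≤ 2 / k := by positivity
    linarith
  have hAb : ∀ t ∈ Ico 0 T, |A t| ≤ M₃ := fun t ht => hsq _ _ hM₃1 (by
    have := hAB t ht; nlinarith [sq_nonneg (B t)])
  have hBb : ∀ t ∈ Ico 0 T, |B t| ≤ M₃ := fun t ht => hsq _ _ hM₃1 (by
    have := hAB t ht; nlinarith [sq_nonneg (A t)])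
  -- `e = |E| s`
  have hinf : ∀ ε > 0, ∃ t ∈ Ico 0 T, |E t * s t| < ε := by
    intro ε hε
    obtain ⟨t, ht, h⟩ := hnc (max M₂ M₃) (ε / S) (by positivity)
    refine ⟨t, ht, ?_⟩
    rcases h with h | h | h | h
    · exact absurd (hQb t ht) (not_le.2 ((le_max_left _ _).trans_lt h))
    · exact absurd (hAb t ht) (not_le.2 ((le_max_right _ _).trans_lt h))
    · exact absurd (hBb t ht) (not_le.2 ((le_max_right _ _).trans_lt h))
    · rw [abs_mul, abs_of_pos (hs0 t)]
      calc |E t| * s t ≤ |E t| * S := mul_le_mul_of_nonneg_left (hsS t ht) (abs_nonneg _)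
        _ < ε / S * S := mul_lt_mul_of_pos_right h hS0
        _ = ε := by field_simp
  have he : ∀ t ∈ Ico 0 T, |E t * s t| ≤ C * (T - t) := by
    intro t ht
    -- minimum on `[0,t]`
    have hcont : ContinuousOn (fun t => |E t * s t|) (Icc 0 t) := by
      intro x hx
      exact (hder x ⟨hx.1, hx.2.trans_lt ht.2⟩).continuousAt.abs.continuousWithinAt
    obtain ⟨x, hx, hmin⟩ := isCompact_Icc.exists_isMinOn (nonempty_Icc.2 ht.1) hcont
    have hxpos : 0 < |E x * s x| := by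
      have : E x ≠ 0 := hE0 x ⟨hx.1, hx.2.trans_lt ht.2⟩
      exact abs_pos.2 (mul_ne_zero this (hs0 x).ne')
    refine le_of_forall_pos_le_add fun δ hδ => ?_
    obtain ⟨t', ht', hlt⟩ := hinf (min |E x * s x| δ) (lt_min hxpos hδ)
    have h1 : t < t' := by
      by_contra hcon
      have h2 : |E x * s x| ≤ |E t' * s t'| := hmin ⟨ht'.1, not_lt.1 hcon⟩
      exact absurd (hlt.trans_le (min_le_left _ _)) (not_lt.2 h2)
    have h2 := hLip t ht t' ht'
    rw [abs_of_pos (by linarith : 0 < t' - t)] at h2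
    have h3 : |E t * s t| ≤ |E t' * s t'| + |E t' * s t' - E t * s t| := by
      have := abs_sub_abs_le_abs_sub (E t * s t) (E t' * s t')
      rw [abs_sub_comm] at this
      linarith
    have h4 : |E t' * s t'| < δ := hlt.trans_le (min_le_right _ _)
    nlinarith [ht'.2]
  by_contra hcon
  push Not at hcon
  set Js : ℝ := ς * (J₀ + T) with hJs
  obtain ⟨δ, hδ0, hδT, hδ1, hδ2, hδ3⟩ : ∃ δ > 0, δ < T ∧ δ < Js / 2 ∧
      2 * k ^ 2 * p ^ 2 * (C * S) * δ < 1 ∧
      2 * k * |p| * M₂ * C * δ < Js / (2 * S) := by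
    have h1 := eventually_small 1 hT
    have h2 := eventually_small 1 (half_pos hcon)
    have h3 := eventually_small (2 * k ^ 2 * p ^ 2 * (C * S)) one_pos
    have h4 := eventually_small (2 * k * |p| * M₂ * C) (by positivity : 0 < Js / (2 * S))
    have h5 : ∀ᶠ δ in 𝓝[>] (0 : ℝ), 0 < δ := self_mem_nhdsWithin
    obtain ⟨δ, g1, g2, g3, g4, g5⟩ := (h1.and (h2.and (h3.and (h4.and h5)))).exists
    exact ⟨δ, g5, by linarith, by linarith, g3, g4⟩
  set t₁ := T - δ with ht₁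
  have ht₁mem : t₁ ∈ Ico 0 T := ⟨by linarith, by linarith⟩
  have hsub : Ico t₁ T ⊆ Ico 0 T := Ico_subset_Ico_left ht₁mem.1
  set D : ℝ → ℝ := fun t => E t * s t + k * p * E t * (p - (J₀ + t) * Q t + B t - Q t * A t)
    with hD
  have hmono : MonotoneOn (fun t => ς * D t) (Ico t₁ T) := by
    apply monotoneOn_of_deriv_nonneg (convex_Ico _ _)
    · intro t ht
      exact ((hderD t (hsub ht)).const_mul ς).continuousAt.continuousWithinAt
    · intro t ht
      rw [interior_Ico] at ht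
      exact ((hderD t (hsub ⟨ht.1.le, ht.2⟩)).const_mul ς).differentiableAt.differentiableWithinAt
    · intro t ht
      rw [interior_Ico] at ht
      have htm : t ∈ Ico 0 T := hsub ⟨ht.1.le, ht.2⟩
      rw [((hderD t htm).const_mul ς).deriv]
      have hTt : T - t < δ := by linarith [ht.1]
      have hTt0 : 0 < T - t := by linarith [ht.2]
      have e1 : Js / 2 ≤ ς * (J₀ + t) := by
        have : ς * (J₀ + t) = Js - ς * (T - t) := by rw [hJs]; ring
        rw [this]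
        have h6 : ς * (T - t) ≤ T - t := by
          rcases hς with h | h <;> rw [h] <;> linarith
        linarith
      have e2 : Js / (2 * S) ≤ ς * (J₀ + t) / s t := by
        rw [div_le_div_iff₀ (by positivity) (hs0 t)]
        have h7 := hsS t htm
        nlinarith
      have e3 : |2 * k * p * Q t * E t| ≤ 2 * k * |p| * M₂ * C * δ := by
        have h8 : |2 * k * p * Q t * E t| = 2 * k * |p| * |Q t| * |E t| := by
          rw [abs_mul, abs_mul, abs_mul, abs_mul, abs_of_pos hk]; norm_num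
        rw [h8]
        have h9 : |E t| ≤ C * δ := (hEle t htm).trans ((he t htm).trans (by nlinarith))
        have h10 := hQb t htm
        calc 2 * k * |p| * |Q t| * |E t| ≤ 2 * k * |p| * M₂ * (C * δ) := by
              apply mul_le_mul _ h9 (abs_nonneg _) (by positivity)
              exact mul_le_mul_of_nonneg_left h10 (by positivity)
          _ = _ := by ring
      have e4 : ς * (2 * k * p * Q t * E t) ≤ |2 * k * p * Q t * E t| := by
        calc ς * (2 * k * p * Q t * E t) ≤ |ς * (2 * k * p * Q t * E t)| := le_abs_self _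
          _ = |2 * k * p * Q t * E t| := by rw [abs_mul, hςabs, one_mul]
      have e5 : ς * ((J₀ + t) / s t - 2 * k * p * Q t * E t) =
          ς * (J₀ + t) / s t - ς * (2 * k * p * Q t * E t) := by ring
      rw [e5]
      linarith
  have hDform : ∀ t, D t = E t * s t * (1 + (k * p / s t) * (p - (J₀ + t) * Q t + B t - Q t * A t)) := by
    intro t
    have := (hs0 t).ne'
    rw [hD]
    field_simp
  have hpos1 : 0 < ς * D t₁ := by
    rw [hDform]
    have h1 : 0 < ς * (E t₁ * s t₁) := by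
      rw [← mul_assoc]; exact mul_pos (hpos t₁ ht₁mem) (hs0 t₁)
    have h2 := g_pos hk hp (hs0 t₁) (hs2 t₁) (hE t₁) (hJ t₁ ht₁mem) (by
      have h3 : E t₁ * s t₁ ≤ C * δ := by
        have := (le_abs_self _).trans (he t₁ ht₁mem)
        have h4 : T - t₁ = δ := by rw [ht₁]; ring
        rwa [h4] at this
      have h5 := hsS t₁ ht₁mem
      have h6 : 2 * k ^ 2 * p ^ 2 * E t₁ * s t₁ ^ 2 = 2 * k ^ 2 * p ^ 2 * (E t₁ * s t₁ * s t₁) := by
        ring
      have h7 : E t₁ * s t₁ * s t₁ ≤ C * δ * S := by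
        calc E t₁ * s t₁ * s t₁ ≤ C * δ * s t₁ := mul_le_mul_of_nonneg_right h3 (hs0 t₁).le
          _ ≤ C * δ * S := mul_le_mul_of_nonneg_left h5 (by positivity)
      rw [h6]
      have h8 : 2 * k ^ 2 * p ^ 2 * (E t₁ * s t₁ * s t₁) ≤ 2 * k ^ 2 * p ^ 2 * (C * δ * S) :=
        mul_le_mul_of_nonneg_left h7 (by positivity)
      nlinarith)
    rw [← mul_assoc]
    exact mul_pos h1 h2
  set G : ℝ := C * (1 + k * |p| * (|p| + (|J₀| + T) * M₂ + M₃ + M₂ * M₃)) with hG
  have hupper : ∀ t ∈ Ico 0 T, ς * D t ≤ G * (T - t) := by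
    intro t ht
    have h1 : |D t| ≤ |E t * s t| * (1 + k * |p| * (|p| + (|J₀| + T) * M₂ + M₃ + M₂ * M₃)) := by
      have h2 : D t = E t * s t + E t * (k * p * (p - (J₀ + t) * Q t + B t - Q t * A t)) := by
        rw [hD]; ring
      rw [h2]
      have h3 : |p - (J₀ + t) * Q t + B t - Q t * A t| ≤ |p| + (|J₀| + T) * M₂ + M₃ + M₂ * M₃ := by
        have i1 : |(J₀ + t) * Q t| ≤ (|J₀| + T) * M₂ := by
          rw [abs_mul]
          exact mul_le_mul (hJabs t ht) (hQb t ht) (abs_nonneg _) (by positivity)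
        have i2 : |Q t * A t| ≤ M₂ * M₃ := by
          rw [abs_mul]
          exact mul_le_mul (hQb t ht) (hAb t ht) (abs_nonneg _) (by positivity)
        have i3 := hBb t ht
        rw [abs_le] at i1 i2 i3 ⊢
        have i4 := neg_abs_le p
        have i5 := le_abs_self p
        constructor <;> linarith [i1.1, i1.2, i2.1, i2.2, i3.1, i3.2]
      have h4 : |E t * (k * p * (p - (J₀ + t) * Q t + B t - Q t * A t))| ≤
          |E t * s t| * (k * |p| * (|p| + (|J₀| + T) * M₂ + M₃ + M₂ * M₃)) := by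
        rw [abs_mul]
        apply mul_le_mul (hEle t ht) _ (abs_nonneg _) (abs_nonneg _)
        rw [abs_mul, abs_mul, abs_of_pos hk]
        exact mul_le_mul_of_nonneg_left h3 (by positivity)
      calc _ ≤ |E t * s t| + |E t * (k * p * (p - (J₀ + t) * Q t + B t - Q t * A t))| :=
            abs_add_le _ _
        _ ≤ _ := by linarith
    calc ς * D t ≤ |ς * D t| := le_abs_self _
      _ = |D t| := by rw [abs_mul, hςabs, one_mul]
      _ ≤ _ := h1
      _ ≤ C * (T - t) * (1 + k * |p| * (|p| + (|J₀| + T) * M₂ + M₃ + M₂ * M₃)) :=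
        mul_le_mul_of_nonneg_right (he t ht) (by positivity)
      _ = G * (T - t) := by rw [hG]; ring
  obtain ⟨η, hη0, hηδ, hη1⟩ : ∃ η > 0, η < δ ∧ G * η < ς * D t₁ := by
    have h1 := eventually_small 1 hδ0
    have h2 := eventually_small G hpos1
    have h5 : ∀ᶠ δ in 𝓝[>] (0 : ℝ), 0 < δ := self_mem_nhdsWithin
    obtain ⟨η, g1, g2, g3⟩ := (h1.and (h2.and h5)).exists
    exact ⟨η, g3, by linarith, g2⟩
  have hmem2 : T - η ∈ Ico t₁ T := ⟨by linarith, by linarith⟩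
  have h1 := hmono (⟨le_rfl, by linarith⟩ : t₁ ∈ Ico t₁ T) hmem2 (by linarith)
  have h2 := hupper _ (hsub hmem2)
  have h3 : T - (T - η) = η := by ring
  rw [h3] at h2
  simp only at h1
  linarith

end Pool.Agent.KH
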