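import Mathlib

/-!
The Kepler–Heisenberg system: phase space, Hamiltonian, Poisson bracket, complete integrability.
-/

open scoped ContDiff

namespace Pool.Agent.KH

/-- The ambient space `T*ℝ³ = ℝ⁶`, with canonical coordinates
`u = (x, y, z, p_x, p_y, p_z) = (u 0, u 1, u 2, u 3, u 4, u 5)`. -/
abbrev Phase := Fin 6 → ℝ

/-- The phase space `T*(ℝ³ ∖ {0})`. -/
def PhaseSpace : Set Phase := {u | ¬ (u 0 = 0 ∧ u 1 = 0 ∧ u 2 = 0)}

/-- The Kepler–Heisenberg Hamiltonian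
`½((p_x - ½ y p_z)² + (p_y + ½ x p_z)²) - 1 / (8π √((x² + y²)² + 16 z²))`. -/
noncomputable def H (u : Phase) : ℝ :=
  1 / 2 * ((u 3 - 1 / 2 * u 1 * u 5) ^ 2 + (u 4 + 1 / 2 * u 0 * u 5) ^ 2) -
    1 / (8 * Real.pi * √((u 0 ^ 2 + u 1 ^ 2) ^ 2 + 16 * u 2 ^ 2))

/-- The open invariant set `W = {H ≠ 0}`. -/
def W : Set Phase := {u | u ∈ PhaseSpace ∧ H u ≠ 0}

/-- The canonical Poisson bracket
`{f, g} = ∑ᵢ (∂f/∂qᵢ ∂g/∂pᵢ - ∂f/∂pᵢ ∂g/∂qᵢ)`, with `q = (u 0, u 1, u 2)`, `p = (u 3, u 4, u 5)`. -/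
noncomputable def poisson (f g : Phase → ℝ) (u : Phase) : ℝ :=
  ∑ i : Fin 3, (fderiv ℝ f u (Pi.single (Fin.castAdd 3 i) 1) *
      fderiv ℝ g u (Pi.single (Fin.natAdd 3 i) 1) -
    fderiv ℝ f u (Pi.single (Fin.natAdd 3 i) 1) *
      fderiv ℝ g u (Pi.single (Fin.castAdd 3 i) 1))

/-- Complete (Liouville) integrability of class `C^n` of the Kepler–Heisenberg system on the set
`V`: there are three functions of class `C^n` on `V`, each Poisson-commuting with `H` (that is,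
each a first integral) and pairwise Poisson-commuting, whose differentials are linearly
independent on an open dense subset of `V`. -/
def CompletelyIntegrable (n : ℕ∞ω) (V : Set Phase) : Prop :=
  ∃ F : Fin 3 → Phase → ℝ,
    (∀ i, ContDiffOn ℝ n (F i) V) ∧
    (∀ i, ∀ u ∈ V, poisson (F i) H u = 0) ∧
    (∀ i j, ∀ u ∈ V, poisson (F i) (F j) u = 0) ∧
    ∃ D : Set Phase, IsOpen D ∧ D ⊆ V ∧ V ⊆ closure D ∧
      ∀ u ∈ D, LinearIndependent ℝ (fun i => fderiv ℝ (F i) u)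

end Pool.Agent.KH
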