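import Pool.Agent.MP_dd7031_mp.Pull

/-!
Local third integrals on the phase space.
-/

open Set Filter Metric
open scoped Topology ContDiff

namespace Pool.Agent.KH

open Pool.Agent.H99

/-- The exceptional set of the reduced system. -/
def NB : Set R4 := NN Xh Om JF

theorem isOpen_U0 : IsOpen (U0 Xh Om JF) := by
  rw [isOpen_iff_mem_nhds]
  rintro y ⟨w, hw⟩
  have h1 := hw.eventually_conn_fl isOpen_Om timeSystem.smooth1
  have h2 : ContinuousAt (fun z : R4 => ((-JF z, z) : ℝ × R4)) y :=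
    (contDiff_JF.continuous.neg.prodMk continuous_id).continuousAt
  filter_upwards [h2.eventually h1] with z hz
  exact ⟨_, hz⟩

theorem isClosed_NB : IsClosed NB := isClosed_closure.inter isOpen_U0.isClosed_compl

theorem interior_NB : interior NB = ∅ := by
  by_contra hne
  obtain ⟨y, hy⟩ := nonempty_iff_ne_empty.2 hne
  have h1 : y ∈ closure (U0 Xh Om JF) := (interior_subset hy).1
  obtain ⟨z, hz1, hz2⟩ := mem_closure_iff.1 h1 _ isOpen_interior hy
  exact (interior_subset hz1).2 hz2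

theorem Pr_mem_Om {u : Phase} (hu : u ∈ W) (hp : pth u ≠ 0) : Pr u ∈ Om := by
  have hr := r2_pos_of_pth hp
  refine ⟨hp, ?_⟩
  rw [EF_Pr hr]
  exact mul_ne_zero hr.ne' hu.2

open Classical in
/-- Pull-back to the phase space of a function on the reduced space, `0` on `{p_θ = 0}`. -/
noncomputable def pull (f : R4 → ℝ) (u : Phase) : ℝ := if pth u = 0 then 0 else f (Pr u)

theorem contDiffAt_Pr {u : Phase} (hu : r2 u ≠ 0) : ContDiffAt ℝ ∞ Pr u := by
  rw [contDiffAt_pi]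
  intro i
  fin_cases i
  · exact ((contDiff_const.mul (contDiff_pcoord 2)).contDiffAt).div contDiff_r2.contDiffAt hu
  · exact (((contDiff_pcoord 0).mul (contDiff_pcoord 3)).add
      ((contDiff_pcoord 1).mul (contDiff_pcoord 4))).contDiffAt
  · exact (contDiff_pth.add ((contDiff_const.mul contDiff_r2).mul
      (contDiff_pcoord 5))).contDiffAt
  · exact contDiff_pth.contDiffAt

/-- A reduced function that can be pulled back. -/
structure Good (f : R4 → ℝ) : Prop where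
  smooth : ∀ y ∈ Om, ContDiffAt ℝ ∞ f y
  vanish : ∃ p₁ > 0, ∀ y ∈ Om, |y 3| < p₁ → f y = 0
  inv : ∀ y ∈ Om, fderiv ℝ f y (Xh y) = 0

theorem pull_eventually {f : R4 → ℝ} {u : Phase} (hp : pth u ≠ 0) :
    pull f =ᶠ[𝓝 u] fun v => f (Pr v) := by
  filter_upwards [contDiff_pth.continuous.continuousAt.eventually_ne hp] with v hv
  unfold pull
  rw [if_neg hv]

theorem pull_eventually_zero {f : R4 → ℝ} (hf : Good f) {u : Phase} (hu : u ∈ W)
    (hp : pth u = 0) : pull f =ᶠ[𝓝 u] fun _ => 0 := by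
  obtain ⟨p₁, hp₁, h⟩ := hf.vanish
  have h1 : ∀ᶠ v in 𝓝 u, |pth v| < p₁ := by
    have h2 : ContinuousAt (fun v => |pth v|) u := contDiff_pth.continuous.abs.continuousAt
    exact h2.eventually (gt_mem_nhds (by show |pth u| < p₁; rw [hp, abs_zero]; exact hp₁))
  filter_upwards [h1, isOpen_W.mem_nhds hu] with v hv1 hv2
  unfold pull
  split_ifs with h3
  · rfl
  · exact h _ (Pr_mem_Om hv2 h3) hv1

theorem pull_smooth {f : R4 → ℝ} (hf : Good f) {u : Phase} (hu : u ∈ W) :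
    ContDiffAt ℝ ∞ (pull f) u := by
  by_cases hp : pth u = 0
  · exact contDiffAt_const.congr_of_eventuallyEq (pull_eventually_zero hf hu hp)
  · have h1 : ContDiffAt ℝ ∞ (fun v => f (Pr v)) u :=
      (hf.smooth _ (Pr_mem_Om hu hp)).comp u (contDiffAt_Pr (r2_pos_of_pth hp).ne')
    exact h1.congr_of_eventuallyEq (pull_eventually hp)

theorem fderiv_pull {f : R4 → ℝ} (hf : Good f) {u : Phase} (hu : u ∈ W) (hp : pth u ≠ 0)
    (v : Phase) : fderiv ℝ (pull f) u v = fderiv ℝ f (Pr u) (dPr u v) := by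
  rw [(pull_eventually hp).fderiv_eq]
  have hr := (r2_pos_of_pth hp).ne'
  have hf1 : DifferentiableAt ℝ f (Pr u) :=
    (hf.smooth _ (Pr_mem_Om hu hp)).differentiableAt (by simp)
  refine line_deriv ?_ ?_
  · exact hf1.comp u ((contDiffAt_Pr hr).differentiableAt (by simp))
  · have h1 : HasFDerivAt f (fderiv ℝ f (Pr u)) (Pr (u + (0 : ℝ) • v)) := by
      simpa using hf1.hasFDerivAt
    exact h1.comp_hasDerivAt 0 (Pr_line hr v)

theorem fderiv_pull_zero {f : R4 → ℝ} (hf : Good f) {u : Phase} (hu : u ∈ W) (hp : pth u = 0)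
    (v : Phase) : fderiv ℝ (pull f) u v = 0 := by
  rw [(pull_eventually_zero hf hu hp).fderiv_eq]
  simp

theorem fderiv_pull_VH {f : R4 → ℝ} (hf : Good f) {u : Phase} (hu : u ∈ W) :
    fderiv ℝ (pull f) u (VH u) = 0 := by
  by_cases hp : pth u = 0
  · exact fderiv_pull_zero hf hu hp _
  · rw [fderiv_pull hf hu hp, dPr_VH (r2_pos_of_pth hp) (Pr_mem_Om hu hp).2, map_smul,
      hf.inv _ (Pr_mem_Om hu hp), smul_zero]

theorem fderiv_pull_VP {f : R4 → ℝ} (hf : Good f) {u : Phase} (hu : u ∈ W) :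
    fderiv ℝ (pull f) u (VP u) = 0 := by
  by_cases hp : pth u = 0
  · exact fderiv_pull_zero hf hu hp _
  · rw [fderiv_pull hf hu hp, dPr_VP, map_zero]

/-- The generator of dilations. -/
def VD (u : Phase) : Phase := ![u 0, u 1, 2 * u 2, -u 3, -u 4, -(2 * u 5)]

theorem dPr_VD {u : Phase} (hr : r2 u ≠ 0) : dPr u (VD u) = 0 := by
  ext i
  fin_cases i
  · show (4 * (2 * u 2) * r2 u - 4 * u 2 * (2 * u 0 * u 0 + 2 * u 1 * u 1)) / (r2 u) ^ 2 = 0
    have : 4 * (2 * u 2) * r2 u - 4 * u 2 * (2 * u 0 * u 0 + 2 * u 1 * u 1) = 0 := by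
      unfold r2; ring
    rw [this, zero_div]
  · show u 0 * u 3 + u 0 * -u 3 + (u 1 * u 4 + u 1 * -u 4) = 0
    ring
  · show u 0 * u 4 + u 0 * -u 4 - (u 1 * u 3 + u 1 * -u 3) +
      1 / 2 * ((2 * u 0 * u 0 + 2 * u 1 * u 1) * u 5 + r2 u * -(2 * u 5)) = 0
    unfold r2
    ring
  · show u 0 * u 4 + u 0 * -u 4 - (u 1 * u 3 + u 1 * -u 3) = 0
    ring

theorem dP_VD (u : Phase) : dP u (VD u) = 0 := by
  show u 0 * u 4 + u 0 * -u 4 - (u 1 * u 3 + u 1 * -u 3) = 0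
  ring

theorem dH_VD {u : Phase} (hu : u ∈ PhaseSpace) : dH u (VD u) = -2 * H u := by
  have hR := R2_pos hu
  have hsp : 0 < √(R2 u) := Real.sqrt_pos.2 hR
  have hsq : √(R2 u) ^ 2 = R2 u := Real.sq_sqrt hR.le
  have hk := kk_pos
  have e1 : dH u (VD u) = PX u * (-u 3 - 1 / 2 * (u 1 * u 5 + u 1 * -(2 * u 5))) +
      PY u * (-u 4 + 1 / 2 * (u 0 * u 5 + u 0 * -(2 * u 5))) +
      (2 * r2 u * (u 0 * u 0 + u 1 * u 1) + 16 * u 2 * (2 * u 2)) / (kk * √(R2 u) ^ 3) := rfl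
  have e2 : 2 * r2 u * (u 0 * u 0 + u 1 * u 1) + 16 * u 2 * (2 * u 2) = 2 * √(R2 u) ^ 2 := by
    rw [hsq]; unfold r2 R2; ring
  have e3 : 2 * √(R2 u) ^ 2 / (kk * √(R2 u) ^ 3) = 2 * (1 / (kk * √(R2 u))) := by
    field_simp
  have e4 : H u = 1 / 2 * (PX u ^ 2 + PY u ^ 2) - 1 / (kk * √(R2 u)) := rfl
  rw [e1, e2, e3, e4]
  unfold PX PY
  ring

/-- The direction in which only `Q` moves. -/
noncomputable def V1 (u : Phase) : Phase :=
  ![0, 0, r2 u / 4, -(u 0 * u 5 / 2), -(u 1 * u 5 / 2), 0]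

theorem dPr_V1 {u : Phase} (hr : r2 u ≠ 0) :
    dPr u (V1 u) = ![1, -((Pr u) 2 - (Pr u) 3), 0, 0] := by
  ext i
  fin_cases i
  · show (4 * (r2 u / 4) * r2 u - 4 * u 2 * (2 * u 0 * 0 + 2 * u 1 * 0)) / (r2 u) ^ 2 = 1
    field_simp
    ring
  · show 0 * u 3 + u 0 * -(u 0 * u 5 / 2) + (0 * u 4 + u 1 * -(u 1 * u 5 / 2)) =
      -(pth u + 1 / 2 * r2 u * u 5 - pth u)
    unfold r2
    ring
  · show 0 * u 4 + u 0 * -(u 1 * u 5 / 2) - (0 * u 3 + u 1 * -(u 0 * u 5 / 2)) +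
      1 / 2 * ((2 * u 0 * 0 + 2 * u 1 * 0) * u 5 + r2 u * 0) = 0
    ring
  · show 0 * u 4 + u 0 * -(u 1 * u 5 / 2) - (0 * u 3 + u 1 * -(u 0 * u 5 / 2)) = 0
    ring

theorem dP_V1 (u : Phase) : dP u (V1 u) = 0 := by
  show 0 * u 4 + u 0 * -(u 1 * u 5 / 2) - (0 * u 3 + u 1 * -(u 0 * u 5 / 2)) = 0
  ring

/-- A direction in which `p_θ` moves. -/
def V3 (u : Phase) : Phase := ![0, 0, 0, -u 1, u 0, 0]

theorem dP_V3 (u : Phase) : dP u (V3 u) = r2 u := by
  show 0 * u 4 + u 0 * u 0 - (0 * u 3 + u 1 * -u 1) = r2 u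
  unfold r2
  ring

/-- Local third integrals exist near good points. -/
theorem exists_local {y₀ : R4} (hy₀ : y₀ ∈ Om) (hN : y₀ ∉ NB) :
    ∃ f : R4 → ℝ, Good f ∧ fderiv ℝ f y₀ ![1, -(y₀ 2 - y₀ 3), 0, 0] = 1 := by
  have hopen : IsOpen (Om \ NB) := isOpen_Om.sdiff isClosed_NB
  obtain ⟨R, hR, hRW⟩ := Metric.isOpen_iff.1 hopen y₀ ⟨hy₀, hN⟩
  let b : ContDiffBump y₀ := ⟨R / 4, R / 2, by positivity, by linarith⟩
  set η : R4 → ℝ := fun y => b y * (y 0 - y₀ 0) with hη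
  have hη1 : ContDiff ℝ ∞ η := b.contDiff.mul ((contDiff_coord 0).sub contDiff_const)
  have hη2 : HasCompactSupport η := b.hasCompactSupport.mul_right
  have hη3 : tsupport η ⊆ Om \ NB := by
    refine (tsupport_mul_subset_left (f := b) (g := fun y : R4 => y 0 - y₀ 0)).trans ?_
    rw [b.tsupport_eq]
    exact (closedBall_subset_ball (by show R / 2 < R; linarith)).trans hRW
  have hη4 : ∀ᶠ y in 𝓝 y₀, η y = y 0 - y₀ 0 := by
    filter_upwards [ball_mem_nhds y₀ (by positivity : 0 < R / 4)] with y hy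
    have : b y = 1 := b.one_of_mem_closedBall (ball_subset_closedBall hy)
    simp [hη, this]
  refine ⟨TimeSystem.integral Xh Om JF (JF y₀) η, ⟨?_, ?_, ?_⟩, ?_⟩
  · intro y hy
    exact timeSystem.integral_smooth hη1 hη2 hη3 hy
  · -- vanishing for small `|p|`
    by_cases hne : (tsupport η).Nonempty
    · obtain ⟨w₀, hw₀, hmin⟩ := hη2.isCompact.exists_isMinOn hne
        ((continuous_apply 3).abs.continuousOn (s := tsupport η) :
          ContinuousOn (fun y : R4 => |y 3|) (tsupport η))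
      refine ⟨|w₀ 3|, abs_pos.2 (hη3 hw₀).1.1, ?_⟩
      intro y hy hlt
      by_contra hcon
      obtain ⟨w, hw, hw'⟩ := timeSystem.exists_of_integral_ne hcon
      have h1 := p_conn hw
      have h2 : |w₀ 3| ≤ |w 3| := hmin (subset_tsupport η hw')
      rw [h1] at h2
      linarith
    · refine ⟨1, one_pos, ?_⟩
      intro y hy hlt
      by_contra hcon
      obtain ⟨w, hw, hw'⟩ := timeSystem.exists_of_integral_ne hcon
      exact hne ⟨w, subset_tsupport η hw'⟩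
  · intro y hy
    exact timeSystem.integral_deriv hη1 hη2 hη3 hy
  · set d : R4 := ![1, -(y₀ 2 - y₀ 3), 0, 0] with hd
    have hdiff : DifferentiableAt ℝ (TimeSystem.integral Xh Om JF (JF y₀) η) y₀ :=
      (timeSystem.integral_smooth hη1 hη2 hη3 hy₀).differentiableAt (by simp)
    have hline : HasDerivAt (fun t : ℝ => y₀ + t • d) d 0 := by
      have := ((hasDerivAt_id (0 : ℝ)).smul_const d).const_add y₀
      simpa using this
    have h1 : HasDerivAt (fun t : ℝ => TimeSystem.integral Xh Om JF (JF y₀) η (y₀ + t • d))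
        (fderiv ℝ (TimeSystem.integral Xh Om JF (JF y₀) η) y₀ d) 0 := by
      have h2 : HasFDerivAt (TimeSystem.integral Xh Om JF (JF y₀) η)
          (fderiv ℝ (TimeSystem.integral Xh Om JF (JF y₀) η) y₀) (y₀ + (0 : ℝ) • d) := by
        simpa using hdiff.hasFDerivAt
      exact h2.comp_hasDerivAt 0 hline
    have hc : Tendsto (fun t : ℝ => y₀ + t • d) (𝓝 0) (𝓝 y₀) := by
      have := hline.continuousAt.tendsto
      simpa using this
    have hev : (fun t : ℝ => TimeSystem.integral Xh Om JF (JF y₀) η (y₀ + t • d)) =ᶠ[𝓝 0]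
        fun t => t := by
      filter_upwards [hc.eventually hη4, hc.eventually (isOpen_Om.mem_nhds hy₀)] with t ht1 ht2
      have hJ : JF (y₀ + t • d) = JF y₀ := by
        show (y₀ 1 + t * (-(y₀ 2 - y₀ 3))) + (y₀ 0 + t * 1) * ((y₀ 2 + t * 0) - (y₀ 3 + t * 0)) =
          y₀ 1 + y₀ 0 * (y₀ 2 - y₀ 3)
        ring
      rw [timeSystem.integral_section ht2 hJ, ht1]
      show y₀ 0 + t * 1 - y₀ 0 = t
      ring
    exact h1.unique ((hasDerivAt_id (0 : ℝ)).congr_of_eventuallyEq hev)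

/-- Good points of the phase space. -/
def WG : Set Phase := {u | u ∈ W ∧ pth u ≠ 0 ∧ Pr u ∉ NB}

/-- The direction used for independence. -/
noncomputable def Xi (u : Phase) : Phase := V1 u + (dH u (V1 u) / (2 * H u)) • VD u

theorem linear_dP (u v w : Phase) (c : ℝ) : dP u (v + c • w) = dP u v + c * dP u w := by
  rw [← fderiv_pth, ← fderiv_pth, ← fderiv_pth, map_add, map_smul, smul_eq_mul]

theorem exists_local_phase {u : Phase} (hu : u ∈ WG) :
    ∃ f : R4 → ℝ, Good f ∧ fderiv ℝ (pull f) u (Xi u) = 1 := by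
  obtain ⟨hW, hp, hN⟩ := hu
  have hr := (r2_pos_of_pth hp).ne'
  obtain ⟨f, hf, h1⟩ := exists_local (Pr_mem_Om hW hp) hN
  refine ⟨f, hf, ?_⟩
  rw [Xi, map_add, map_smul, fderiv_pull hf hW hp, fderiv_pull hf hW hp, dPr_V1 hr, h1,
    dPr_VD hr, map_zero, smul_zero, add_zero]

theorem dH_Xi {u : Phase} (hu : u ∈ WG) : fderiv ℝ H u (Xi u) = 0 := by
  have h := hu.1.2
  rw [Xi, map_add, map_smul, fderiv_H hu.1.1, fderiv_H hu.1.1, dH_VD hu.1.1, smul_eq_mul]
  field_simp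
  ring

theorem dP_Xi (u : Phase) : fderiv ℝ pth u (Xi u) = 0 := by
  rw [Xi, map_add, map_smul, fderiv_pth, fderiv_pth, dP_V1, dP_VD, smul_zero, add_zero]

/-- A right inverse of the reduction map. -/
noncomputable def Sec (u : Phase) (y : R4) : Phase :=
  ![u 0, u 1, y 0 * r2 u / 4, (u 0 * y 1 - u 1 * y 3) / r2 u, (u 1 * y 1 + u 0 * y 3) / r2 u,
    2 * (y 2 - y 3) / r2 u]

theorem Pr_Sec {u : Phase} (hr : r2 u ≠ 0) (y : R4) : Pr (Sec u y) = y := by
  have e : r2 (Sec u y) = r2 u := rfl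
  have ep : pth (Sec u y) = y 3 := by
    show u 0 * ((u 1 * y 1 + u 0 * y 3) / r2 u) - u 1 * ((u 0 * y 1 - u 1 * y 3) / r2 u) = y 3
    have : u 0 * ((u 1 * y 1 + u 0 * y 3) / r2 u) - u 1 * ((u 0 * y 1 - u 1 * y 3) / r2 u) =
      (r2 u) * y 3 / r2 u := by unfold r2; ring
    rw [this]; field_simp
  ext i
  fin_cases i
  · show 4 * (y 0 * r2 u / 4) / r2 (Sec u y) = y 0
    rw [e]; field_simp
  · show u 0 * ((u 0 * y 1 - u 1 * y 3) / r2 u) + u 1 * ((u 1 * y 1 + u 0 * y 3) / r2 u) = y 1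
    have : u 0 * ((u 0 * y 1 - u 1 * y 3) / r2 u) + u 1 * ((u 1 * y 1 + u 0 * y 3) / r2 u) =
      (r2 u) * y 1 / r2 u := by unfold r2; ring
    rw [this]; field_simp
  · show pth (Sec u y) + 1 / 2 * r2 (Sec u y) * (2 * (y 2 - y 3) / r2 u) = y 2
    rw [ep, e]; field_simp; ring
  · exact ep

theorem Sec_Pr {u : Phase} (hr : r2 u ≠ 0) : Sec u (Pr u) = u := by
  ext i
  fin_cases i
  · rfl
  · rfl
  · show 4 * u 2 / r2 u * r2 u / 4 = u 2
    field_simp
  · show (u 0 * (u 0 * u 3 + u 1 * u 4) - u 1 * (u 0 * u 4 - u 1 * u 3)) / r2 u = u 3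
    have : u 0 * (u 0 * u 3 + u 1 * u 4) - u 1 * (u 0 * u 4 - u 1 * u 3) = r2 u * u 3 := by
      unfold r2; ring
    rw [this]; field_simp
  · show (u 1 * (u 0 * u 3 + u 1 * u 4) + u 0 * (u 0 * u 4 - u 1 * u 3)) / r2 u = u 4
    have : u 1 * (u 0 * u 3 + u 1 * u 4) + u 0 * (u 0 * u 4 - u 1 * u 3) = r2 u * u 4 := by
      unfold r2; ring
    rw [this]; field_simp
  · show 2 * (pth u + 1 / 2 * r2 u * u 5 - pth u) / r2 u = u 5
    field_simp
    ring

theorem continuous_Sec (u : Phase) : Continuous (Sec u) := by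
  rw [continuous_pi_iff]
  intro i
  fin_cases i
  · exact continuous_const
  · exact continuous_const
  · show Continuous (fun y : R4 => y 0 * r2 u / 4)
    fun_prop
  · show Continuous (fun y : R4 => (u 0 * y 1 - u 1 * y 3) / r2 u)
    fun_prop
  · show Continuous (fun y : R4 => (u 1 * y 1 + u 0 * y 3) / r2 u)
    fun_prop
  · show Continuous (fun y : R4 => 2 * (y 2 - y 3) / r2 u)
    fun_prop

theorem dense_pth {u : Phase} (hp : pth u = 0) : ∃ᶠ v in 𝓝 u, pth v ≠ 0 := by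
  set d : Phase := ![1, 0, 0, 0, 1, 0] with hd
  have hline : Tendsto (fun t : ℝ => u + t • d) (𝓝[≠] 0) (𝓝 u) := by
    have h1 : Continuous (fun t : ℝ => u + t • d) := by fun_prop
    have h2 := h1.tendsto 0
    simp only [zero_smul, add_zero] at h2
    exact h2.mono_left nhdsWithin_le_nhds
  have hval : ∀ t : ℝ, pth (u + t • d) = t * (t + (u 0 + u 4)) := by
    intro t
    have : pth (u + t • d) = (u 0 + t * 1) * (u 4 + t * 1) - (u 1 + t * 0) * (u 3 + t * 0) := rfl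
    rw [this]
    unfold pth at hp
    linear_combination hp
  have hev : ∀ᶠ t in 𝓝[≠] (0 : ℝ), pth (u + t • d) ≠ 0 := by
    have h1 : ∀ᶠ t in 𝓝[≠] (0 : ℝ), t ≠ 0 := self_mem_nhdsWithin
    have h2 : ∀ᶠ t in 𝓝[≠] (0 : ℝ), t + (u 0 + u 4) ≠ 0 := by
      by_cases h3 : u 0 + u 4 = 0
      · rw [h3]; simpa using h1
      · have h4 : ContinuousAt (fun t : ℝ => t + (u 0 + u 4)) 0 := by fun_prop
        exact (h4.eventually_ne (by simpa using h3)).filter_mono nhdsWithin_le_nhds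
    filter_upwards [h1, h2] with t ht1 ht2
    rw [hval]
    exact mul_ne_zero ht1 ht2
  exact hline.frequently hev.frequently

theorem W_subset_closure_WG : W ⊆ closure WG := by
  intro u hu
  rw [_root_.mem_closure_iff]
  intro V hV huV
  have hVW : IsOpen (V ∩ W) := hV.inter isOpen_W
  -- first get `p_θ ≠ 0`
  obtain ⟨u', hu'V, hu'p⟩ : ∃ u' ∈ V ∩ W, pth u' ≠ 0 := by
    by_cases hp : pth u = 0
    · obtain ⟨u', h1, h2⟩ := ((dense_pth hp).and_eventually (hVW.mem_nhds ⟨huV, hu⟩)).exists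
      exact ⟨u', h2, h1⟩
    · exact ⟨u, ⟨huV, hu⟩, hp⟩
  by_contra hcon
  rw [not_nonempty_iff_eq_empty] at hcon
  have hall : ∀ v ∈ V ∩ W, pth v ≠ 0 → Pr v ∈ NB := by
    intro v hv hvp
    by_contra hN
    have : v ∈ V ∩ WG := ⟨hv.1, hv.2, hvp, hN⟩
    rw [hcon] at this
    exact this
  have hr := (r2_pos_of_pth hu'p).ne'
  have h1 : Tendsto (Sec u') (𝓝 (Pr u')) (𝓝 u') := by
    have := (continuous_Sec u').tendsto (Pr u')
    rwa [Sec_Pr hr] at this
  have h2' : ∀ᶠ v in 𝓝 u', v ∈ V ∩ W := hVW.mem_nhds hu'V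
  have h2 : ∀ᶠ v in 𝓝 u', v ∈ V ∩ W ∧ pth v ≠ 0 :=
    h2'.and (contDiff_pth.continuous.continuousAt.eventually_ne hu'p)
  have h3 : ∀ᶠ y in 𝓝 (Pr u'), y ∈ NB := by
    filter_upwards [h1.eventually h2] with y hy
    have := hall _ hy.1 hy.2
    rwa [Pr_Sec hr] at this
  have h4 : Pr u' ∈ interior NB := mem_interior_iff_mem_nhds.2 h3
  rw [interior_NB] at h4
  exact h4

end Pool.Agent.KH
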