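import Pool.Agent.Lib.helper99.TimeFn
import Pool.Agent.MP_dd7031_mp.BlowLemma

/-!
The reduced Kepler–Heisenberg system on `ℝ⁴ ∋ (Q, A, B, p)`, parametrised by the dilation
momentum `J`, as a `TimeSystem`.
-/

open Set Filter Metric
open scoped Topology ContDiff

namespace Pool.Agent.KH

open Pool.Agent.H99

/-- The reduced space `(Q, A, B, p)`. -/
abbrev R4 := Fin 4 → ℝ

/-- `8π`. -/
noncomputable def kk : ℝ := 8 * Real.pi

theorem kk_pos : 0 < kk := by unfold kk; positivity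

noncomputable def sF (y : R4) : ℝ := √(1 + y 0 ^ 2)

/-- The reduced energy `r² H`. -/
noncomputable def EF (y : R4) : ℝ := (y 1 ^ 2 + y 2 ^ 2) / 2 - 1 / (kk * sF y)

/-- The dilation momentum. -/
def JF (y : R4) : ℝ := y 1 + y 0 * (y 2 - y 3)

/-- The numerators of the reduced vector field. -/
noncomputable def aF (y : R4) : ℝ := y 1 ^ 2 - y 2 ^ 2 + 2 * y 3 * y 2 - 2 / (kk * sF y ^ 3)

noncomputable def bF (y : R4) : ℝ := 2 * y 1 * (y 2 - y 3) - 2 * y 0 / (kk * sF y ^ 3)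

/-- The reduced vector field, in the time `J`. -/
noncomputable def Xh (y : R4) : R4 :=
  ![(y 2 - y 0 * y 1) / EF y, aF y / (2 * EF y), bF y / (2 * EF y), 0]

/-- The domain. -/
def Om : Set R4 := {y | y 3 ≠ 0 ∧ EF y ≠ 0}

theorem sF_pos (y : R4) : 0 < sF y := Real.sqrt_pos.2 (by positivity)

theorem sF_sq (y : R4) : sF y ^ 2 = 1 + y 0 ^ 2 := Real.sq_sqrt (by positivity)

theorem contDiff_coord (i : Fin 4) : ContDiff ℝ ∞ (fun y : R4 => y i) := contDiff_apply ℝ ℝ i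

theorem contDiff_sF : ContDiff ℝ ∞ sF := by
  have h : ContDiff ℝ ∞ (fun y : R4 => 1 + y 0 ^ 2) :=
    contDiff_const.add ((contDiff_coord 0).pow 2)
  exact h.sqrt fun y => by positivity

theorem contDiff_EF : ContDiff ℝ ∞ EF := by
  have h1 : ContDiff ℝ ∞ (fun y : R4 => (y 1 ^ 2 + y 2 ^ 2) / 2) :=
    (((contDiff_coord 1).pow 2).add ((contDiff_coord 2).pow 2)).div_const 2
  have h2 : ContDiff ℝ ∞ (fun y : R4 => 1 / (kk * sF y)) :=
    contDiff_const.div (contDiff_const.mul contDiff_sF) fun y => by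
      have := sF_pos y; have := kk_pos; positivity
  exact h1.sub h2

theorem contDiff_JF : ContDiff ℝ ∞ JF :=
  (contDiff_coord 1).add ((contDiff_coord 0).mul ((contDiff_coord 2).sub (contDiff_coord 3)))

theorem contDiff_aF : ContDiff ℝ ∞ aF := by
  have h2 : ContDiff ℝ ∞ (fun y : R4 => 2 / (kk * sF y ^ 3)) :=
    contDiff_const.div (contDiff_const.mul (contDiff_sF.pow 3)) fun y => by
      have := sF_pos y; have := kk_pos; positivity
  exact ((((contDiff_coord 1).pow 2).sub ((contDiff_coord 2).pow 2)).add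
    ((contDiff_const.mul (contDiff_coord 3)).mul (contDiff_coord 2))).sub h2

theorem contDiff_bF : ContDiff ℝ ∞ bF := by
  have h2 : ContDiff ℝ ∞ (fun y : R4 => 2 * y 0 / (kk * sF y ^ 3)) :=
    (contDiff_const.mul (contDiff_coord 0)).div (contDiff_const.mul (contDiff_sF.pow 3))
      fun y => by have := sF_pos y; have := kk_pos; positivity
  exact ((contDiff_const.mul (contDiff_coord 1)).mul
    ((contDiff_coord 2).sub (contDiff_coord 3))).sub h2

theorem isOpen_Om : IsOpen Om := by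
  have h1 : IsOpen {y : R4 | y 3 ≠ 0} := isOpen_ne_fun (continuous_apply 3) continuous_const
  have h2 : IsOpen {y : R4 | EF y ≠ 0} := isOpen_ne_fun contDiff_EF.continuous continuous_const
  exact h1.inter h2

theorem contDiffOn_Xh : ContDiffOn ℝ ∞ Xh Om := by
  rw [contDiffOn_pi]
  have hE : ContDiffOn ℝ ∞ EF Om := contDiff_EF.contDiffOn
  have h2E : ContDiffOn ℝ ∞ (fun y => 2 * EF y) Om := contDiffOn_const.mul hE
  have hne : ∀ y ∈ Om, EF y ≠ 0 := fun y hy => hy.2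
  have hne2 : ∀ y ∈ Om, 2 * EF y ≠ 0 := fun y hy => mul_ne_zero two_ne_zero hy.2
  intro i
  fin_cases i
  · exact (((contDiff_coord 2).sub ((contDiff_coord 0).mul (contDiff_coord 1))).contDiffOn).div
      hE hne
  · exact contDiff_aF.contDiffOn.div h2E hne2
  · exact contDiff_bF.contDiffOn.div h2E hne2
  · exact contDiffOn_const

theorem comp_deriv {γ : ℝ → R4} {t : ℝ} (h : HasDerivAt γ (Xh (γ t)) t) :
    HasDerivAt (fun t => γ t 0) ((γ t 2 - γ t 0 * γ t 1) / EF (γ t)) t ∧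
    HasDerivAt (fun t => γ t 1) (aF (γ t) / (2 * EF (γ t))) t ∧
    HasDerivAt (fun t => γ t 2) (bF (γ t) / (2 * EF (γ t))) t ∧
    HasDerivAt (fun t => γ t 3) 0 t := by
  rw [hasDerivAt_pi] at h
  exact ⟨h 0, h 1, h 2, h 3⟩

theorem JF_deriv {γ : ℝ → R4} {t : ℝ} (hm : γ t ∈ Om) (h : HasDerivAt γ (Xh (γ t)) t) :
    HasDerivAt (fun t => JF (γ t)) 1 t := by
  obtain ⟨h0, h1, h2, h3⟩ := comp_deriv h
  have h4 : HasDerivAt (fun t => γ t 1 + γ t 0 * (γ t 2 - γ t 3))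
      (aF (γ t) / (2 * EF (γ t)) + ((γ t 2 - γ t 0 * γ t 1) / EF (γ t) * (γ t 2 - γ t 3) +
        γ t 0 * (bF (γ t) / (2 * EF (γ t)) - 0))) t := h1.add (h0.mul (h2.sub h3))
  convert! h4 using 1
  have hE0 : EF (γ t) ≠ 0 := hm.2
  have hs2 := sF_sq (γ t)
  have hs0 := sF_pos (γ t)
  have hk := kk_pos
  obtain ⟨w, hw⟩ : ∃ w, w = 1 / (kk * sF (γ t) ^ 3) := ⟨_, rfl⟩
  have w1 : 2 / (kk * sF (γ t) ^ 3) = 2 * w := by rw [hw]; ring
  have w2 : 2 * γ t 0 / (kk * sF (γ t) ^ 3) = 2 * γ t 0 * w := by rw [hw]; ring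
  have w3 : 1 / (kk * sF (γ t)) = w * (1 + γ t 0 ^ 2) := by rw [hw, ← hs2]; field_simp
  have hEt : EF (γ t) = (γ t 1 ^ 2 + γ t 2 ^ 2) / 2 - w * (1 + γ t 0 ^ 2) := by
    rw [← w3]; rfl
  have ha : aF (γ t) = γ t 1 ^ 2 - γ t 2 ^ 2 + 2 * γ t 3 * γ t 2 - 2 * w := by
    rw [← w1]; rfl
  have hb : bF (γ t) = 2 * γ t 1 * (γ t 2 - γ t 3) - 2 * γ t 0 * w := by
    rw [← w2]; rfl
  rw [ha, hb]
  field_simp
  rw [hEt]
  ring

theorem JF_conn {u v : R4} {t : ℝ} (h : Conn Xh Om u t v) : JF v = JF u + t := by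
  have := Conn.linear (f := JF) (c := 1) (fun γ s hm hd => JF_deriv hm hd) h
  linarith

theorem p_conn {u v : R4} {t : ℝ} (h : Conn Xh Om u t v) : v 3 = u 3 := by
  have := Conn.linear (f := fun y : R4 => y 3) (c := 0)
    (fun γ s hm hd => (comp_deriv hd).2.2.2) h
  linarith

/-- The compact sets used. -/
theorem compact_box (M ε p₀ : ℝ) (hp : p₀ ≠ 0) (hε : 0 < ε) :
    IsCompact {y : R4 | |y 0| ≤ M ∧ |y 1| ≤ M ∧ |y 2| ≤ M ∧ y 3 = p₀ ∧ ε ≤ |EF y|} ∧
    {y : R4 | |y 0| ≤ M ∧ |y 1| ≤ M ∧ |y 2| ≤ M ∧ y 3 = p₀ ∧ ε ≤ |EF y|} ⊆ Om := by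
  constructor
  · have h1 : IsCompact (Set.pi univ (fun i : Fin 4 =>
        Icc ((![-M, -M, -M, p₀] : Fin 4 → ℝ) i) ((![M, M, M, p₀] : Fin 4 → ℝ) i))) :=
      isCompact_univ_pi fun i => isCompact_Icc
    have h2 : IsClosed {y : R4 | ε ≤ |EF y|} :=
      isClosed_le continuous_const contDiff_EF.continuous.abs
    have h3 := h1.inter_right h2
    convert h3 using 1
    ext y
    constructor
    · rintro ⟨h0, h1, h2, h3, h4⟩
      refine ⟨?_, h4⟩
      intro i _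
      fin_cases i
      · exact abs_le.1 h0
      · exact abs_le.1 h1
      · exact abs_le.1 h2
      · exact ⟨h3.ge, h3.le⟩
    · rintro ⟨h, h4⟩
      have h3 := h 3 (mem_univ _)
      exact ⟨abs_le.2 (h 0 (mem_univ _)), abs_le.2 (h 1 (mem_univ _)),
        abs_le.2 (h 2 (mem_univ _)), le_antisymm h3.2 h3.1, h4⟩
  · rintro y ⟨-, -, -, h3, h4⟩
    refine ⟨by rw [h3]; exact hp, ?_⟩
    intro h
    rw [h, abs_zero] at h4
    linarith

theorem blow_fwd {u : R4} {T ς : ℝ} (hς : ς = 1 ∨ ς = -1) (hu : u ∈ Om) (hB : Blow Xh Om u T)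
    (hpos : 0 < ς * EF u) : ς * (JF u + T) ≤ 0 := by
  obtain ⟨hT, -, hconn, hnc⟩ := hB
  have hΩ := isOpen_Om
  have hX : ContDiffOn ℝ 1 Xh Om := contDiffOn_Xh.of_le (by exact_mod_cast le_top)
  have hd : ∀ t ∈ Ico 0 T, HasDerivAt (fun s => fl Xh Om (s, u)) (Xh (fl Xh Om (t, u))) t :=
    fun t ht => (hconn t ht).hasDerivAt_fl hΩ hX
  have hp : ∀ t ∈ Ico 0 T, fl Xh Om (t, u) 3 = u 3 := fun t ht => p_conn (hconn t ht)
  have hsign : ∀ t ∈ Ico 0 T, 0 < ς * EF (fl Xh Om (t, u)) := by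
    intro t ht
    exact sign_conn (En := fun y => ς * EF y) hΩ
      ((contDiff_const.mul contDiff_EF).continuous.continuousOn)
      (fun y hy => mul_ne_zero (by rcases hς with h | h <;> rw [h] <;> norm_num) hy.2)
      (hconn t ht) hpos
  refine blow_lemma (k := kk) kk_pos hς hT (p := u 3) (J₀ := JF u) hu.1
    (Q := fun t => fl Xh Om (t, u) 0) (A := fun t => fl Xh Om (t, u) 1)
    (B := fun t => fl Xh Om (t, u) 2) (s := fun t => sF (fl Xh Om (t, u)))
    (E := fun t => EF (fl Xh Om (t, u)))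
    (fun t => rfl) (fun t => rfl) ?_ hsign ?_ ?_ ?_ ?_
  · intro t ht
    have h1 := JF_conn (hconn t ht)
    rw [← h1, JF, hp t ht]
  · intro t ht
    exact (comp_deriv (hd t ht)).1
  · intro t ht
    have h1 := (comp_deriv (hd t ht)).2.1
    rw [aF, hp t ht] at h1
    exact h1
  · intro t ht
    have h1 := (comp_deriv (hd t ht)).2.2.1
    rw [bF, hp t ht] at h1
    exact h1
  · intro M ε hε
    obtain ⟨hK1, hK2⟩ := compact_box M ε (u 3) hu.1 hε
    obtain ⟨t, ht, hnot⟩ := hnc _ hK1 hK2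
    refine ⟨t, ht, ?_⟩
    by_contra hcon
    push Not at hcon
    exact hnot ⟨hcon.1, hcon.2.1, hcon.2.2.1, hp t ht, hcon.2.2.2⟩

theorem blow_bwd {u : R4} {T ς : ℝ} (hς : ς = 1 ∨ ς = -1) (hu : u ∈ Om) (hB : BlowB Xh Om u T)
    (hpos : 0 < ς * EF u) : ς * (-JF u + T) ≤ 0 := by
  obtain ⟨hT, -, hconn, hnc⟩ := hB
  have hΩ := isOpen_Om
  have hX : ContDiffOn ℝ 1 Xh Om := contDiffOn_Xh.of_le (by exact_mod_cast le_top)
  have hd : ∀ t ∈ Ico 0 T, HasDerivAt (fun s => fl Xh Om (s, u)) (Xh (fl Xh Om (-t, u))) (-t) :=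
    fun t ht => (hconn t ht).hasDerivAt_fl hΩ hX
  have hp : ∀ t ∈ Ico 0 T, fl Xh Om (-t, u) 3 = u 3 := fun t ht => p_conn (hconn t ht)
  have hsign : ∀ t ∈ Ico 0 T, 0 < ς * EF (fl Xh Om (-t, u)) := by
    intro t ht
    exact sign_conn (En := fun y => ς * EF y) hΩ
      ((contDiff_const.mul contDiff_EF).continuous.continuousOn)
      (fun y hy => mul_ne_zero (by rcases hς with h | h <;> rw [h] <;> norm_num) hy.2)
      (hconn t ht) hpos
  have hneg : ∀ (f : ℝ → ℝ) (c t : ℝ), HasDerivAt f c (-t) →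
      HasDerivAt (fun t => f (-t)) (-c) t := by
    intro f c t h
    have h1 := HasDerivAt.comp (h₂ := f) (h := fun s : ℝ => -s) t h (hasDerivAt_neg t)
    simpa [Function.comp_def] using h1
  refine blow_lemma (k := kk) kk_pos hς hT (p := -u 3) (J₀ := -JF u) (neg_ne_zero.2 hu.1)
    (Q := fun t => fl Xh Om (-t, u) 0) (A := fun t => -fl Xh Om (-t, u) 1)
    (B := fun t => -fl Xh Om (-t, u) 2) (s := fun t => sF (fl Xh Om (-t, u)))
    (E := fun t => EF (fl Xh Om (-t, u)))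
    (fun t => rfl) (fun t => by simp only [EF, neg_sq]) ?_ hsign ?_ ?_ ?_ ?_
  · intro t ht
    have h1 := JF_conn (hconn t ht)
    have h2 := hp t ht
    simp only [JF] at h1 ⊢
    rw [h2] at h1
    linarith
  · intro t ht
    have h1 := hneg _ _ t (comp_deriv (hd t ht)).1
    convert! h1 using 1
    ring
  · intro t ht
    have h1 := (hneg _ _ t (comp_deriv (hd t ht)).2.1).neg
    rw [aF, hp t ht] at h1
    convert! h1 using 1
    ring
  · intro t ht
    have h1 := (hneg _ _ t (comp_deriv (hd t ht)).2.2.1).neg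
    rw [bF, hp t ht] at h1
    convert! h1 using 1
    ring
  · intro M ε hε
    obtain ⟨hK1, hK2⟩ := compact_box M ε (u 3) hu.1 hε
    obtain ⟨t, ht, hnot⟩ := hnc _ hK1 hK2
    refine ⟨t, ht, ?_⟩
    by_contra hcon
    push Not at hcon
    simp only [abs_neg] at hcon
    exact hnot ⟨hcon.1, hcon.2.1, hcon.2.2.1, hp t ht, hcon.2.2.2⟩

/-- The reduced Kepler–Heisenberg system is a `TimeSystem`. -/
theorem timeSystem : TimeSystem Xh Om JF EF where
  isOpen := isOpen_Om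
  smooth := contDiffOn_Xh
  smoothJ := contDiff_JF.contDiffOn
  contEn := contDiff_EF.continuous.continuousOn
  En_ne := fun u hu => hu.2
  J_conn := fun h => JF_conn h
  blow_pos := by
    intro u T hu hB hE
    have := blow_fwd (Or.inl rfl) hu hB (by linarith)
    linarith
  blow_neg := by
    intro u T hu hB hE
    have := blow_fwd (Or.inr rfl) hu hB (by linarith)
    linarith
  blowB_pos := by
    intro u T hu hB hE
    have := blow_bwd (Or.inl rfl) hu hB (by linarith)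
    linarith
  blowB_neg := by
    intro u T hu hB hE
    have := blow_bwd (Or.inr rfl) hu hB (by linarith)
    linarith

end Pool.Agent.KH
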