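import Pool.Agent.MP_dd7031_mp.Defs
import Pool.Agent.MP_dd7031_mp.Reduced

/-!
Pulling back reduced functions to phase space; Poisson brackets.
-/

open Set Filter Metric
open scoped Topology ContDiff

namespace Pool.Agent.KH

open Pool.Agent.H99

/-- `x² + y²` -/
def r2 (u : Phase) : ℝ := u 0 ^ 2 + u 1 ^ 2

/-- `p_θ` -/
def pth (u : Phase) : ℝ := u 0 * u 4 - u 1 * u 3

/-- The reduction map. -/
noncomputable def Pr (u : Phase) : R4 :=
  ![4 * u 2 / r2 u, u 0 * u 3 + u 1 * u 4, pth u + 1 / 2 * r2 u * u 5, pth u]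

theorem r2_pos_of_pth {u : Phase} (h : pth u ≠ 0) : 0 < r2 u := by
  unfold r2
  rcases eq_or_ne (u 0) 0 with h0 | h0
  · rcases eq_or_ne (u 1) 0 with h1 | h1
    · exact absurd (by unfold pth; rw [h0, h1]; ring) h
    · positivity
  · positivity

theorem EF_Pr {u : Phase} (h : 0 < r2 u) : EF (Pr u) = r2 u * H u := by
  have hk := kk_pos
  have hs : sF (Pr u) = √((u 0 ^ 2 + u 1 ^ 2) ^ 2 + 16 * u 2 ^ 2) / r2 u := by
    have h1 : 1 + (Pr u) 0 ^ 2 = ((u 0 ^ 2 + u 1 ^ 2) ^ 2 + 16 * u 2 ^ 2) / (r2 u) ^ 2 := by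
      show 1 + (4 * u 2 / r2 u) ^ 2 = _
      field_simp
      unfold r2
      ring
    unfold sF
    rw [h1, Real.sqrt_div (by positivity), Real.sqrt_sq h.le]
  have hR : 0 < √((u 0 ^ 2 + u 1 ^ 2) ^ 2 + 16 * u 2 ^ 2) := by
    have : 0 < (u 0 ^ 2 + u 1 ^ 2) ^ 2 := by
      have h2 : 0 < u 0 ^ 2 + u 1 ^ 2 := h
      positivity
    exact Real.sqrt_pos.2 (by positivity)
  unfold EF H
  rw [hs]
  have e : kk = 8 * Real.pi := rfl
  rw [e] at hk ⊢
  set R := √((u 0 ^ 2 + u 1 ^ 2) ^ 2 + 16 * u 2 ^ 2) with hRdef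
  have h1 : (Pr u) 1 = u 0 * u 3 + u 1 * u 4 := rfl
  have h2 : (Pr u) 2 = pth u + 1 / 2 * r2 u * u 5 := rfl
  rw [h1, h2]
  have h3 : 1 / (8 * Real.pi * (R / r2 u)) = r2 u * (1 / (8 * Real.pi * R)) := by
    field_simp
  rw [h3, mul_sub]
  congr 1
  unfold pth r2
  ring

/-- The Hamiltonian vector field of `g`. -/
noncomputable def ham (g : Phase → ℝ) (u : Phase) : Phase :=
  ![fderiv ℝ g u (Pi.single 3 1), fderiv ℝ g u (Pi.single 4 1), fderiv ℝ g u (Pi.single 5 1),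
    -fderiv ℝ g u (Pi.single 0 1), -fderiv ℝ g u (Pi.single 1 1), -fderiv ℝ g u (Pi.single 2 1)]

theorem clm_expand (L : Phase →L[ℝ] ℝ) (v : Phase) :
    L v = ∑ i : Fin 6, v i * L (Pi.single i 1) := by
  have h : v = ∑ i : Fin 6, v i • (Pi.single i (1 : ℝ) : Phase) := by
    have := pi_eq_sum_univ' v
    convert this using 2 with i
  conv_lhs => rw [h]
  rw [map_sum]
  simp

theorem poisson_eq (f g : Phase → ℝ) (u : Phase) :
    poisson f g u = fderiv ℝ f u (ham g u) := by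
  rw [clm_expand]
  unfold poisson ham
  simp only [Fin.sum_univ_three, Fin.sum_univ_six]
  have e1 : (Fin.castAdd 3 (0 : Fin 3) : Fin 6) = 0 := rfl
  have e2 : (Fin.castAdd 3 (1 : Fin 3) : Fin 6) = 1 := rfl
  have e3 : (Fin.castAdd 3 (2 : Fin 3) : Fin 6) = 2 := rfl
  have e4 : (Fin.natAdd 3 (0 : Fin 3) : Fin 6) = 3 := rfl
  have e5 : (Fin.natAdd 3 (1 : Fin 3) : Fin 6) = 4 := rfl
  have e6 : (Fin.natAdd 3 (2 : Fin 3) : Fin 6) = 5 := rfl
  rw [e1, e2, e3, e4, e5, e6]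
  simp
  ring

theorem poisson_antisymm (f g : Phase → ℝ) (u : Phase) : poisson f g u = -poisson g f u := by
  unfold poisson
  rw [← Finset.sum_neg_distrib]
  congr 1
  funext i
  ring

/-- A derivative along a line. -/
theorem line_deriv {f : Phase → ℝ} {u v : Phase} {c : ℝ} (hf : DifferentiableAt ℝ f u)
    (h : HasDerivAt (fun t : ℝ => f (u + t • v)) c 0) : fderiv ℝ f u v = c := by
  have h1 : HasDerivAt (fun t : ℝ => u + t • v) v 0 := by
    have := ((hasDerivAt_id (0 : ℝ)).smul_const v).const_add u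
    simpa using this
  have h2 : HasFDerivAt f (fderiv ℝ f u) (u + (0 : ℝ) • v) := by
    simpa using hf.hasFDerivAt
  exact (h2.comp_hasDerivAt 0 h1).unique h

theorem hasDerivAt_line (u v : Phase) (i : Fin 6) :
    HasDerivAt (fun t : ℝ => (u + t • v) i) (v i) 0 := by
  have : HasDerivAt (fun t : ℝ => u i + t * v i) (v i) 0 := by
    have := ((hasDerivAt_id (0 : ℝ)).mul_const (v i)).const_add (u i)
    simpa using this
  simpa [smul_eq_mul] using this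

/-- `r⁴ + 16 z²` -/
def R2 (u : Phase) : ℝ := (u 0 ^ 2 + u 1 ^ 2) ^ 2 + 16 * u 2 ^ 2

theorem R2_pos {u : Phase} (hu : u ∈ PhaseSpace) : 0 < R2 u := by
  unfold R2
  by_cases h2 : u 2 = 0
  · have h01 : ¬ (u 0 = 0 ∧ u 1 = 0) := fun h => hu ⟨h.1, h.2, h2⟩
    have : 0 < u 0 ^ 2 + u 1 ^ 2 := by
      by_cases h0 : u 0 = 0
      · have h1 : u 1 ≠ 0 := fun h => h01 ⟨h0, h⟩
        positivity
      · positivity
    positivity
  · positivity

theorem contDiff_pcoord (i : Fin 6) : ContDiff ℝ ∞ (fun y : Phase => y i) :=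
  contDiff_apply ℝ ℝ i

theorem contDiff_R2 : ContDiff ℝ ∞ R2 :=
  ((((contDiff_pcoord 0).pow 2).add ((contDiff_pcoord 1).pow 2)).pow 2).add
    (contDiff_const.mul ((contDiff_pcoord 2).pow 2))

theorem contDiff_r2 : ContDiff ℝ ∞ r2 :=
  ((contDiff_pcoord 0).pow 2).add ((contDiff_pcoord 1).pow 2)

theorem contDiff_pth : ContDiff ℝ ∞ pth :=
  ((contDiff_pcoord 0).mul (contDiff_pcoord 4)).sub ((contDiff_pcoord 1).mul (contDiff_pcoord 3))

theorem contDiffAt_H {u : Phase} (hu : u ∈ PhaseSpace) : ContDiffAt ℝ ∞ H u := by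
  have hR := R2_pos hu
  have h1 : ContDiffAt ℝ ∞ (fun u => √(R2 u)) u := contDiff_R2.contDiffAt.sqrt hR.ne'
  have h2 : ContDiffAt ℝ ∞ (fun u => 1 / (8 * Real.pi * √(R2 u))) u :=
    contDiffAt_const.div (contDiffAt_const.mul h1) (by
      have := Real.sqrt_pos.2 hR; positivity)
  have h3 : ContDiff ℝ ∞ (fun u : Phase =>
      1 / 2 * ((u 3 - 1 / 2 * u 1 * u 5) ^ 2 + (u 4 + 1 / 2 * u 0 * u 5) ^ 2)) := by
    have e1 : ContDiff ℝ ∞ (fun u : Phase => u 3 - 1 / 2 * u 1 * u 5) :=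
      (contDiff_pcoord 3).sub ((contDiff_const.mul (contDiff_pcoord 1)).mul (contDiff_pcoord 5))
    have e2 : ContDiff ℝ ∞ (fun u : Phase => u 4 + 1 / 2 * u 0 * u 5) :=
      (contDiff_pcoord 4).add ((contDiff_const.mul (contDiff_pcoord 0)).mul (contDiff_pcoord 5))
    exact contDiff_const.mul ((e1.pow 2).add (e2.pow 2))
  exact h3.contDiffAt.sub h2

theorem isOpen_PhaseSpace : IsOpen PhaseSpace := by
  have h : IsClosed {u : Phase | u 0 = 0 ∧ u 1 = 0 ∧ u 2 = 0} :=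
    (isClosed_eq (continuous_apply 0) continuous_const).inter
      ((isClosed_eq (continuous_apply 1) continuous_const).inter
        (isClosed_eq (continuous_apply 2) continuous_const))
  exact h.isOpen_compl

theorem isOpen_W : IsOpen W := by
  rw [isOpen_iff_mem_nhds]
  rintro u ⟨hu, hH⟩
  have h1 : ∀ᶠ v in 𝓝 u, v ∈ PhaseSpace := isOpen_PhaseSpace.mem_nhds hu
  have h2 : ∀ᶠ v in 𝓝 u, H v ≠ 0 := (contDiffAt_H hu).continuousAt.eventually_ne hH
  filter_upwards [h1, h2] with v h3 h4 using ⟨h3, h4⟩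

/-- `p_X` and `p_Y`. -/
noncomputable def PX (u : Phase) : ℝ := u 3 - 1 / 2 * u 1 * u 5

noncomputable def PY (u : Phase) : ℝ := u 4 + 1 / 2 * u 0 * u 5

/-- The differential of `H`. -/
noncomputable def dH (u v : Phase) : ℝ :=
  PX u * (v 3 - 1 / 2 * (v 1 * u 5 + u 1 * v 5)) + PY u * (v 4 + 1 / 2 * (v 0 * u 5 + u 0 * v 5)) +
    (2 * r2 u * (u 0 * v 0 + u 1 * v 1) + 16 * u 2 * v 2) / (kk * √(R2 u) ^ 3)

theorem H_line {u : Phase} (hu : u ∈ PhaseSpace) (v : Phase) :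
    HasDerivAt (fun t : ℝ => H (u + t • v)) (dH u v) 0 := by
  have hR := R2_pos hu
  have c := hasDerivAt_line u v
  have hR' : HasDerivAt (fun t : ℝ => R2 (u + t • v))
      (2 * r2 u * (2 * u 0 * v 0 + 2 * u 1 * v 1) + 16 * (2 * u 2 * v 2)) 0 := by
    have h1 := ((((c 0).fun_pow 2).fun_add ((c 1).fun_pow 2)).fun_pow 2).fun_add
      (((c 2).fun_pow 2).const_mul 16)
    convert! h1 using 1
    simp [r2]
  have hz : R2 (u + (0 : ℝ) • v) = R2 u := by simp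
  have hs' : HasDerivAt (fun t : ℝ => √(R2 (u + t • v)))
      ((2 * r2 u * (2 * u 0 * v 0 + 2 * u 1 * v 1) + 16 * (2 * u 2 * v 2)) /
        (2 * √(R2 u))) 0 := by
    have := hR'.sqrt (by rw [hz]; exact hR.ne')
    rwa [hz] at this
  have hsp : 0 < √(R2 u) := Real.sqrt_pos.2 hR
  have hinv : HasDerivAt (fun t : ℝ => 1 / (8 * Real.pi * √(R2 (u + t • v))))
      (-((2 * r2 u * (u 0 * v 0 + u 1 * v 1) + 16 * u 2 * v 2) / (kk * √(R2 u) ^ 3))) 0 := by
    have h := (hs'.const_mul (8 * Real.pi)).fun_inv (by rw [hz]; positivity)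
    rw [hz] at h
    have e : (fun t : ℝ => 1 / (8 * Real.pi * √(R2 (u + t • v)))) =
        fun t : ℝ => (8 * Real.pi * √(R2 (u + t • v)))⁻¹ := by
      funext t; rw [one_div]
    rw [e]
    convert! h using 1
    unfold kk
    field_simp
    try ring
  have hkin : HasDerivAt (fun t : ℝ => 1 / 2 *
      (((u + t • v) 3 - 1 / 2 * (u + t • v) 1 * (u + t • v) 5) ^ 2 +
        ((u + t • v) 4 + 1 / 2 * (u + t • v) 0 * (u + t • v) 5) ^ 2))
      (PX u * (v 3 - 1 / 2 * (v 1 * u 5 + u 1 * v 5)) +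
        PY u * (v 4 + 1 / 2 * (v 0 * u 5 + u 0 * v 5))) 0 := by
    have h1 := (c 3).fun_sub (((c 1).const_mul (1 / 2)).fun_mul (c 5))
    have h2 := (c 4).fun_add (((c 0).const_mul (1 / 2)).fun_mul (c 5))
    have h3 := ((h1.fun_pow 2).fun_add (h2.fun_pow 2)).const_mul (1 / 2)
    convert! h3 using 1
    simp [PX, PY]
    ring
  have h := hkin.fun_sub hinv
  convert! h using 1
  unfold dH
  ring

theorem fderiv_H {u : Phase} (hu : u ∈ PhaseSpace) (v : Phase) :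
    fderiv ℝ H u v = dH u v :=
  line_deriv ((contDiffAt_H hu).differentiableAt (by simp)) (H_line hu v)

/-- The differential of `p_θ`. -/
def dP (u v : Phase) : ℝ := v 0 * u 4 + u 0 * v 4 - (v 1 * u 3 + u 1 * v 3)

theorem pth_line (u v : Phase) : HasDerivAt (fun t : ℝ => pth (u + t • v)) (dP u v) 0 := by
  have c := hasDerivAt_line u v
  have h := ((c 0).fun_mul (c 4)).fun_sub ((c 1).fun_mul (c 3))
  convert! h using 1
  simp [dP]

theorem fderiv_pth (u v : Phase) : fderiv ℝ pth u v = dP u v :=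
  line_deriv (contDiff_pth.differentiable (by simp) u) (pth_line u v)

/-- The differential of the reduction map. -/
noncomputable def dPr (u v : Phase) : R4 :=
  ![(4 * v 2 * r2 u - 4 * u 2 * (2 * u 0 * v 0 + 2 * u 1 * v 1)) / (r2 u) ^ 2,
    v 0 * u 3 + u 0 * v 3 + (v 1 * u 4 + u 1 * v 4),
    dP u v + 1 / 2 * ((2 * u 0 * v 0 + 2 * u 1 * v 1) * u 5 + r2 u * v 5),
    dP u v]

theorem Pr_line {u : Phase} (hu : r2 u ≠ 0) (v : Phase) :
    HasDerivAt (fun t : ℝ => Pr (u + t • v)) (dPr u v) 0 := by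
  have c := hasDerivAt_line u v
  have hr : HasDerivAt (fun t : ℝ => r2 (u + t • v)) (2 * u 0 * v 0 + 2 * u 1 * v 1) 0 := by
    have h := ((c 0).fun_pow 2).fun_add ((c 1).fun_pow 2)
    convert! h using 1
    simp
  have hz : r2 (u + (0 : ℝ) • v) = r2 u := by simp
  rw [hasDerivAt_pi]
  intro i
  fin_cases i
  · have h := (((c 2).const_mul 4).fun_div hr (by rw [hz]; exact hu))
    convert! h using 1
    simp [dPr]
  · have h := ((c 0).fun_mul (c 3)).fun_add ((c 1).fun_mul (c 4))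
    convert! h using 1
    simp [dPr]
  · have h := (pth_line u v).fun_add ((hr.const_mul (1 / 2)).fun_mul (c 5))
    convert! h using 1
    simp [dPr]
    ring
  · exact pth_line u v

/-- The Hamiltonian vector field of `H`, explicitly. -/
noncomputable def VH (u : Phase) : Phase :=
  ![PX u, PY u, 1 / 2 * (u 0 * PY u - u 1 * PX u),
    -(1 / 2 * u 5 * PY u + 2 * r2 u * u 0 / (kk * √(R2 u) ^ 3)),
    -(-(1 / 2 * u 5 * PX u) + 2 * r2 u * u 1 / (kk * √(R2 u) ^ 3)),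
    -(16 * u 2 / (kk * √(R2 u) ^ 3))]

theorem ham_H {u : Phase} (hu : u ∈ PhaseSpace) : ham H u = VH u := by
  unfold ham VH
  simp only [fderiv_H hu]
  ext i
  fin_cases i
  · simp [dH]
  · simp [dH]
  · simp [dH]; ring
  · simp [dH]; ring
  · simp [dH]; ring
  · simp [dH]

/-- The Hamiltonian vector field of `p_θ`, explicitly. -/
def VP (u : Phase) : Phase := ![-u 1, u 0, 0, -u 4, u 3, 0]

theorem ham_pth (u : Phase) : ham pth u = VP u := by
  unfold ham VP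
  simp only [fderiv_pth]
  ext i
  fin_cases i <;> simp [dP]

theorem dPr_VP {u : Phase} : dPr u (VP u) = 0 := by
  ext i
  fin_cases i
  · show (4 * 0 * r2 u - 4 * u 2 * (2 * u 0 * (-u 1) + 2 * u 1 * u 0)) / (r2 u) ^ 2 = 0
    have : 4 * 0 * r2 u - 4 * u 2 * (2 * u 0 * (-u 1) + 2 * u 1 * u 0) = 0 := by ring
    rw [this, zero_div]
  · show -u 1 * u 3 + u 0 * -u 4 + (u 0 * u 4 + u 1 * u 3) = 0
    ring
  · show -u 1 * u 4 + u 0 * u 3 - (u 0 * u 3 + u 1 * -u 4) +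
      1 / 2 * ((2 * u 0 * (-u 1) + 2 * u 1 * u 0) * u 5 + r2 u * 0) = 0
    ring
  · show -u 1 * u 4 + u 0 * u 3 - (u 0 * u 3 + u 1 * -u 4) = 0
    ring

theorem dH_VP (u : Phase) : dH u (VP u) = 0 := by
  simp [dH, VP, PX, PY]
  ring

theorem dP_VH (u : Phase) : dP u (VH u) = 0 := by
  simp [dP, VH, PX, PY]
  ring

theorem dPr_VH {u : Phase} (hr : 0 < r2 u) (hE : EF (Pr u) ≠ 0) :
    dPr u (VH u) = (2 * EF (Pr u) / r2 u) • Xh (Pr u) := by
  have hk := kk_pos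
  have hu : u ∈ PhaseSpace := by
    rintro ⟨h0, h1, -⟩
    rw [r2, h0, h1] at hr
    norm_num at hr
  have hR := R2_pos hu
  have hsp : 0 < √(R2 u) := Real.sqrt_pos.2 hR
  have hs : sF (Pr u) = √(R2 u) / r2 u := by
    have h1 : 1 + (Pr u) 0 ^ 2 = R2 u / (r2 u) ^ 2 := by
      show 1 + (4 * u 2 / r2 u) ^ 2 = _
      field_simp
      unfold r2 R2
      ring
    unfold sF
    rw [h1, Real.sqrt_div hR.le, Real.sqrt_sq hr.le]
  obtain ⟨w, hw⟩ : ∃ w, w = 1 / (kk * √(R2 u) ^ 3) := ⟨_, rfl⟩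
  have y0 : (Pr u) 0 = 4 * u 2 / r2 u := rfl
  have y1 : (Pr u) 1 = u 0 * u 3 + u 1 * u 4 := rfl
  have y2 : (Pr u) 2 = pth u + 1 / 2 * r2 u * u 5 := rfl
  have y3 : (Pr u) 3 = pth u := rfl
  have w1 : 2 / (kk * sF (Pr u) ^ 3) = 2 * (r2 u) ^ 3 * w := by
    rw [hs, hw]; field_simp
  have w2 : 2 * (Pr u) 0 / (kk * sF (Pr u) ^ 3) = 8 * u 2 * (r2 u) ^ 2 * w := by
    rw [hs, hw, y0]; field_simp; ring
  ext i
  fin_cases i
  · show dPr u (VH u) 0 = (2 * EF (Pr u) / r2 u) * (((Pr u) 2 - (Pr u) 0 * (Pr u) 1) / EF (Pr u))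
    rw [y0, y1, y2]
    simp [dPr, VH, PX, PY, pth]
    field_simp
    unfold r2
    ring
  · show dPr u (VH u) 1 = (2 * EF (Pr u) / r2 u) * (aF (Pr u) / (2 * EF (Pr u)))
    have ha : aF (Pr u) = (Pr u) 1 ^ 2 - (Pr u) 2 ^ 2 + 2 * (Pr u) 3 * (Pr u) 2 -
        2 * (r2 u) ^ 3 * w := by
      rw [← w1]; rfl
    rw [ha, y1, y2, y3]
    have e : dPr u (VH u) 1 = PX u * u 3 + u 0 * -(1 / 2 * u 5 * PY u + 2 * r2 u * u 0 * w) +
        (PY u * u 4 + u 1 * -(-(1 / 2 * u 5 * PX u) + 2 * r2 u * u 1 * w)) := by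
      rw [hw]
      simp [dPr, VH]
      ring
    rw [e]
    field_simp
    unfold PX PY pth r2
    ring
  · show dPr u (VH u) 2 = (2 * EF (Pr u) / r2 u) * (bF (Pr u) / (2 * EF (Pr u)))
    have hb : bF (Pr u) = 2 * (Pr u) 1 * ((Pr u) 2 - (Pr u) 3) - 8 * u 2 * (r2 u) ^ 2 * w := by
      rw [← w2]; rfl
    rw [hb, y1, y2, y3]
    have e : dPr u (VH u) 2 = dP u (VH u) + 1 / 2 * ((2 * u 0 * PX u + 2 * u 1 * PY u) * u 5 +
        r2 u * (-(16 * u 2 / (kk * √(R2 u) ^ 3)))) := rfl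
    have e2 : 16 * u 2 / (kk * √(R2 u) ^ 3) = 16 * u 2 * w := by rw [hw]; ring
    rw [e2, dP_VH] at e
    rw [e]
    field_simp
    unfold PX PY
    ring
  · show dP u (VH u) = (2 * EF (Pr u) / r2 u) * 0
    rw [dP_VH, mul_zero]

end Pool.Agent.KH
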